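import Pool.Agent.U598.IK.Pos
import Pool.Agent.Y362.NT.NLx

/-!
The dimension of the linear spans of the fibres of a variety over a subfield with a null trace.
-/

set_option autoImplicit false
set_option linter.overlappingInstances false
set_option linter.unusedSectionVars false

open FF MvPolynomial Pool.Agent.W602.GT Pool.Agent.Y184.NT

namespace Pool.Agent.U598.IK

/-- the affine linear forms which express the elements of the span -/
theorem exists_frame {E K : Type*} [Field E] [Field K] [Algebra E K] {N : ℕ} (x : Fin N → K)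
    {j0 : Fin N} (hj0 : x j0 = 1) :
    ∃ (s : ℕ) (y : Fin s → K) (l : Fin N → MvPolynomial (Fin s) E),
      Module.finrank E (Submodule.span E (Set.range x)) = s + 1 ∧
      (∀ j, (l j).totalDegree ≤ 1) ∧ (∀ j, aeval y (l j) = x j) ∧
      ∀ i, ∃ j, x j = y i ∧ l j = X i := by
  classical
  have hli : LinearIndepOn E id ({1} : Set K) := LinearIndepOn.singleton one_ne_zero
  obtain ⟨b, hbX, hb1, hspan, hb⟩ := exists_linearIndepOn_id_extension (s := ({1} : Set K))
    (t := Set.range x) hli (by
      rw [Set.singleton_subset_iff]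
      exact ⟨j0, hj0⟩)
  have hbfin : b.Finite := (Set.finite_range x).subset hbX
  have : Fintype b := hbfin.fintype
  have h1b : (1 : K) ∈ b := hb1 rfl
  have hspan' : Submodule.span E b = Submodule.span E (Set.range x) :=
    le_antisymm (Submodule.span_mono hbX) (Submodule.span_le.2 hspan)
  have hcard : Module.finrank E (Submodule.span E (Set.range x)) = Fintype.card b := by
    rw [← hspan']
    have h1 := finrank_span_set_eq_card (R := E) (s := b) hb
    rw [h1, Set.toFinset_card]
  obtain ⟨s, hs⟩ : ∃ s, Fintype.card b = s + 1 :=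
    ⟨Fintype.card b - 1, by
      have : 0 < Fintype.card b := Fintype.card_pos_iff.2 ⟨⟨1, h1b⟩⟩
      omega⟩
  have hcard' : Fintype.card {k : b // k ≠ ⟨1, h1b⟩} = s := by
    rw [Fintype.card_subtype_compl, hs]
    simp
  let e : Fin s ≃ {k : b // k ≠ ⟨1, h1b⟩} := (Fintype.equivFinOfCardEq hcard').symm
  obtain ⟨y, hy⟩ : ∃ y : Fin s → K, y = fun i => (((e i : {k : b // k ≠ ⟨1, h1b⟩}) : b) : K) :=
    ⟨_, rfl⟩
  have hyinj : Function.Injective y := by
    intro i i' h
    rw [hy] at h
    exact e.injective (Subtype.ext (Subtype.ext h))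
  have hex : ∀ v ∈ Submodule.span E b, ∃ l : MvPolynomial (Fin s) E,
      l.totalDegree ≤ 1 ∧ aeval y l = v := by
    intro v hv
    induction hv using Submodule.span_induction with
    | mem v hv =>
      by_cases h : v = 1
      · exact ⟨1, by simp, by rw [h, map_one]⟩
      · refine ⟨X (e.symm ⟨⟨v, hv⟩, fun h' => h (congrArg Subtype.val h')⟩), ?_, ?_⟩
        · rw [totalDegree_X]
        · rw [aeval_X, hy]
          simp
    | zero => exact ⟨0, by simp, map_zero _⟩
    | add v v' _ _ ih ih' =>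
      obtain ⟨l, h1, h2⟩ := ih
      obtain ⟨l', h1', h2'⟩ := ih'
      exact ⟨l + l', (totalDegree_add _ _).trans (max_le h1 h1'), by rw [map_add, h2, h2']⟩
    | smul c v _ ih =>
      obtain ⟨l, h1, h2⟩ := ih
      exact ⟨c • l, (totalDegree_smul_le _ _).trans h1, by rw [map_smul, h2]⟩
  choose l0 hl1 hl2 using fun j => hex (x j) (by
    rw [hspan']
    exact Submodule.subset_span ⟨j, rfl⟩)
  refine ⟨s, y, fun j => if h : ∃ i, y i = x j then X h.choose else l0 j, ?_, fun j => ?_,
    fun j => ?_, fun i => ?_⟩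
  · rw [hcard, hs]
  · dsimp only
    split_ifs
    · rw [totalDegree_X]
    · exact hl1 j
  · dsimp only
    split_ifs with h
    · rw [aeval_X]
      exact h.choose_spec
    · exact hl2 j
  · obtain ⟨j, hj⟩ : ∃ j, x j = y i := hbX (by
      rw [hy]
      exact ((e i : {k : b // k ≠ ⟨1, h1b⟩}) : b).2)
    have h : ∃ i', y i' = x j := ⟨i, hj.symm⟩
    refine ⟨j, hj, ?_⟩
    dsimp only
    rw [dif_pos h]
    congr 1
    exact hyinj (h.choose_spec.trans hj)

theorem totalDegree_aeval_le {k A : Type*} [CommSemiring k] [CommSemiring A] [Algebra k A]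
    {σ τ : Type*} [Fintype σ] (l : σ → MvPolynomial τ A) (hl : ∀ j, (l j).totalDegree ≤ 1)
    (F : MvPolynomial σ k) : (aeval l F).totalDegree ≤ F.totalDegree := by
  classical
  rw [aeval_def, eval₂_eq']
  refine totalDegree_finsetSum_le fun α hα => ?_
  refine (totalDegree_mul _ _).trans ?_
  have h1 : (algebraMap k (MvPolynomial τ A) (coeff α F)).totalDegree = 0 := by
    rw [IsScalarTower.algebraMap_apply k A (MvPolynomial τ A), algebraMap_eq, totalDegree_C]
  rw [h1, zero_add]
  refine (totalDegree_finsetProd _ _).trans ?_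
  refine le_trans ?_ (le_totalDegree hα)
  rw [Finsupp.sum_fintype _ _ fun _ => rfl]
  refine Finset.sum_le_sum fun j _ => ?_
  refine (totalDegree_pow _ _).trans ?_
  exact (Nat.mul_le_mul_left _ (hl j)).trans (by rw [mul_one])

theorem prod_mem_pow {E K : Type*} [Field E] [Field K] [Algebra E K] (V : Submodule E K) {N : ℕ}
    (x : Fin N → K) (hx : ∀ j, x j ∈ V) (e : ℕ) : ∀ f : Fin e → Fin N, ∏ k, x (f k) ∈ V ^ e := by
  induction e with
  | zero =>
    intro f
    rw [Fin.prod_univ_zero, pow_zero]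
    exact Submodule.one_le.1 le_rfl
  | succ e ih =>
    intro f
    rw [Fin.prod_univ_succ, pow_succ']
    exact Submodule.mul_mem_mul (hx _) (ih fun k => f k.succ)

/-- **The spans of the fibres.** -/
theorem deg_bound {V E K : Type} [Field V] [Field E] [Field K] [Algebra ℂ V] [Algebra ℂ E]
    [Algebra ℂ K] [Algebra V K] [Algebra E K] [IsScalarTower ℂ V K] [IsScalarTower ℂ E K]
    [Algebra.EssFiniteType ℂ V] [Algebra.EssFiniteType ℂ E] [FiniteDimensional E K]
    {n e d m N : ℕ} (hed : e ≤ d) (hn : Algebra.trdeg ℂ V = n)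
    {ω : (Fin n → Derivation ℂ V V) → V}
    (hω : IsPluri 1 ω) (hω0 : ∃ D, ω D ≠ 0) {x : Fin N → V} {j0 : Fin N} (hj0 : x j0 = 1)
    (hreg : ∀ (f : Fin m → Fin N) (P : Place ℂ V), Divisorial n P →
      RegAt P (fun D => (∏ k, x (f k)) * ω D))
    (hx : IntermediateField.adjoin ℂ (Set.range x) = ⊤)
    (hgenK : IntermediateField.adjoin E (Set.range fun j => algebraMap V K (x j)) = ⊤)
    (hcomp : RingHom.ker (aeval x : MvPolynomial (Fin N) ℂ →ₐ[ℂ] V) ∈
      (Ideal.span (low ℂ d x)).minimalPrimes)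
    {h : K} (hh : h ≠ 0)
    (htr : ∀ f : Fin m → Fin N, Algebra.trace E K ((∏ k, algebraMap V K (x (f k))) * h) = 0) :
    ∃ a D : ℕ,
      Module.finrank E (Submodule.span E (Set.range fun j => algebraMap V K (x j))) = a + D + 1 ∧
      m < a * e + D * d ∧ (D + (e + 1)).choose (e + 1) ≤ Module.finrank E
        (Submodule.span E (Set.range fun j => algebraMap V K (x j)) ^ (e + 1) :
          Submodule E K) := by
  classical
  have hcE : CharZero E := charZero_of_injective_algebraMap (algebraMap ℂ E).injective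
  obtain ⟨s, y, l, hs, hl1, hl2, hl3⟩ := exists_frame (E := E) (fun j => algebraMap V K (x j))
    (j0 := j0) (by rw [hj0, map_one])
  have hprime : (RingHom.ker (aeval y : MvPolynomial (Fin s) E →ₐ[E] K)).IsPrime :=
    RingHom.ker_isPrime _
  -- the dimension of the variety of the polynomials of small degree
  obtain ⟨D, hDs, ⟨𝔭e, hpe, hpe1, hpe2, hpeD⟩, hDmax⟩ : ∃ D, D ≤ s ∧
      (∃ 𝔭 : Ideal (MvPolynomial (Fin s) E), 𝔭.IsPrime ∧ Ideal.span (low E e y) ≤ 𝔭 ∧
        𝔭 ≤ RingHom.ker (aeval y : MvPolynomial (Fin s) E →ₐ[E] K) ∧ Ind 𝔭 D) ∧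
      ∀ 𝔭 : Ideal (MvPolynomial (Fin s) E), 𝔭.IsPrime → Ideal.span (low E e y) ≤ 𝔭 →
        𝔭 ≤ RingHom.ker (aeval y : MvPolynomial (Fin s) E →ₐ[E] K) → ¬ Ind 𝔭 (D + 1) := by
    by_contra hcon
    push Not at hcon
    have key : ∀ D, ∃ 𝔭 : Ideal (MvPolynomial (Fin s) E), 𝔭.IsPrime ∧
        Ideal.span (low E e y) ≤ 𝔭 ∧
        𝔭 ≤ RingHom.ker (aeval y : MvPolynomial (Fin s) E →ₐ[E] K) ∧ Ind 𝔭 D := by
      intro D
      induction D with
      | zero =>
        refine ⟨_, hprime, ?_, le_rfl, ind_zero hprime.ne_top⟩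
        rw [Ideal.span_le]
        intro G hG
        exact hG.2
      | succ D ih =>
        obtain ⟨𝔭, h1, h2, h3, h4⟩ := ih
        exact hcon D (h4.le h1) ⟨𝔭, h1, h2, h3, h4⟩
    obtain ⟨𝔭, h1, -, -, h4⟩ := key (s + 1)
    have := h4.le h1
    omega
  obtain ⟨a, rfl⟩ : ∃ a, s = a + D := ⟨s - D, by omega⟩
  refine ⟨a, D, hs, ?_, ?_⟩
  swap
  · -- the monomials
    obtain ⟨T, -, hT⟩ := hpeD.coords hpe
    refine card_mono (fun i => y (T i)) (fun P hP hP0 => ?_) _ fun α hα => ?_
    · by_contra hne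
      refine hT P hne (hpe1 (Ideal.subset_span ⟨?_, ?_⟩))
      · exact (totalDegree_aeval_le (fun i => (X (T i) : MvPolynomial (Fin (a + D)) E))
          (fun i => by rw [totalDegree_X]) P).trans hP
      · have h1 := comp_aeval_apply (φ := (aeval y : MvPolynomial (Fin (a + D)) E →ₐ[E] K))
          (fun i => (X (T i) : MvPolynomial (Fin (a + D)) E)) P
        rw [h1]
        simp only [aeval_X]
        exact hP0
    · obtain ⟨f, hf⟩ := exists_prod (A := K) (fun j => algebraMap V K (x j))
        (j0 := j0) (by rw [hj0, map_one]) (fun i => y (T i)) (fun i => by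
          obtain ⟨j, hj, -⟩ := hl3 (T i)
          exact ⟨j, hj⟩) (e + 1) α hα
      rw [← hf]
      exact prod_mem_pow _ (fun j => algebraMap V K (x j))
        (fun j => Submodule.subset_span (Set.mem_range_self j)) _ f
  obtain ⟨ρ, hρ⟩ : ∃ ρ : MvPolynomial (Fin N) ℂ →ₐ[ℂ] MvPolynomial (Fin (a + D)) E, ρ = aeval l :=
    ⟨_, rfl⟩
  have hρX : ∀ j, ρ (X j) = l j := fun j => by rw [hρ, aeval_X]
  have hρdeg : ∀ F, (ρ F).totalDegree ≤ F.totalDegree := fun F => by
    rw [hρ]
    exact totalDegree_aeval_le l hl1 F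
  have hcompat : ∀ F : MvPolynomial (Fin N) ℂ, aeval y (ρ F) = algebraMap V K (aeval x F) := by
    intro F
    induction F using MvPolynomial.induction_on with
    | C c =>
      rw [aeval_C, ← algebraMap_eq, AlgHom.commutes,
        IsScalarTower.algebraMap_apply ℂ E (MvPolynomial (Fin (a + D)) E), AlgHom.commutes,
        ← IsScalarTower.algebraMap_apply ℂ E K, ← IsScalarTower.algebraMap_apply ℂ V K]
    | add p q hp hq => rw [map_add, map_add, map_add, map_add, hp, hq]
    | mul_X p j hp => rw [map_mul, map_mul, map_mul, map_mul, hp, hρX, hl2, aeval_X]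
  obtain ⟨𝔞, h𝔞⟩ : ∃ 𝔞 : Ideal (MvPolynomial (Fin (a + D)) E),
    𝔞 = Ideal.span (ρ '' low ℂ d x ∪ low E e y) :=
    ⟨_, rfl⟩
  have hle : 𝔞 ≤ RingHom.ker (aeval y : MvPolynomial (Fin (a + D)) E →ₐ[E] K) := by
    rw [h𝔞, Ideal.span_le]
    rintro G (⟨F, hF, rfl⟩ | hG)
    · change aeval y (ρ F) = 0
      rw [hcompat, hF.2, map_zero]
    · exact hG.2
  obtain ⟨𝔮, hq, hqle⟩ := Ideal.exists_minimalPrimes_le hle
  have hqp : 𝔮.IsPrime := hq.isPrime
  -- transfer of the minimality
  have hmin : ∀ {R' : Type} [Field R'] [Algebra E R'] (η : Fin (a + D) → R'),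
      RingHom.ker (aeval η : MvPolynomial (Fin (a + D)) E →ₐ[E] R') = 𝔮 →
      RingHom.ker (aeval η : MvPolynomial (Fin (a + D)) E →ₐ[E] R') ∈
        (Ideal.span (low E d η)).minimalPrimes := by
    intro R' _ _ η hη
    have h1 : 𝔞 ≤ Ideal.span (low E d η) := by
      rw [h𝔞]
      refine Ideal.span_mono ?_
      intro G hG
      refine ⟨?_, ?_⟩
      · rcases hG with ⟨F, hF, rfl⟩ | hG
        · exact (hρdeg F).trans hF.1
        · exact hG.1.trans (by omega)
      · have h2 : G ∈ RingHom.ker (aeval η : MvPolynomial (Fin (a + D)) E →ₐ[E] R') := by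
          rw [hη]
          refine hq.1.2 ?_
          rw [h𝔞]
          exact Ideal.subset_span hG
        exact h2
    refine ⟨⟨RingHom.ker_isPrime _, ?_⟩, ?_⟩
    · rw [Ideal.span_le]
      intro G hG
      exact hG.2
    · rintro 𝔭 ⟨hp1, hp2⟩ hp3
      rw [hη] at hp3 ⊢
      exact hq.2 ⟨hp1, h1.trans hp2⟩ hp3
  have hDη : ∀ {R' : Type} [Field R'] [Algebra E R'] (η : Fin (a + D) → R'),
      RingHom.ker (aeval η : MvPolynomial (Fin (a + D)) E →ₐ[E] R') = 𝔮 →
      ∀ 𝔭 : Ideal (MvPolynomial (Fin (a + D)) E), 𝔭.IsPrime → Ideal.span (low E e η) ≤ 𝔭 →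
        𝔭 ≤ RingHom.ker (aeval η : MvPolynomial (Fin (a + D)) E →ₐ[E] R') → ¬ Ind 𝔭 (D + 1) := by
    intro R' _ _ η hη 𝔭 h1 h2 h3
    rw [hη] at h3
    refine hDmax 𝔭 h1 (le_trans (Ideal.span_mono ?_) h2) (h3.trans hqle)
    intro G hG
    refine ⟨hG.1, ?_⟩
    have h4 : G ∈ RingHom.ker (aeval η : MvPolynomial (Fin (a + D)) E →ₐ[E] R') := by
      rw [hη]
      refine hq.1.2 ?_
      rw [h𝔞]
      exact Ideal.subset_span (Or.inr hG)
    exact h4
  -- the generic point of the component
  let A := MvPolynomial (Fin (a + D)) E ⧸ 𝔮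
  let R := FractionRing A
  obtain ⟨η, hη⟩ : ∃ η : Fin (a + D) → R, η = fun i => algebraMap A R (Ideal.Quotient.mk 𝔮 (X i)) :=
    ⟨_, rfl⟩
  have haev : ∀ G : MvPolynomial (Fin (a + D)) E,
      aeval η G = algebraMap A R (Ideal.Quotient.mk 𝔮 G) := by
    intro G
    induction G using MvPolynomial.induction_on with
    | C c =>
      rw [aeval_C]
      change algebraMap E R c = algebraMap A R (algebraMap E A c)
      rw [← IsScalarTower.algebraMap_apply E A R]
    | add p q hp hq => rw [map_add, map_add, map_add, hp, hq]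
    | mul_X p j hp => rw [map_mul, map_mul, map_mul, hp, aeval_X, hη]
  have hker : RingHom.ker (aeval η : MvPolynomial (Fin (a + D)) E →ₐ[E] R) = 𝔮 := by
    ext G
    rw [RingHom.mem_ker]
    change aeval η G = 0 ↔ _
    rw [haev, map_eq_zero_iff _ (IsFractionRing.injective A R), Ideal.Quotient.eq_zero_iff_mem]
  have hgenR : IntermediateField.adjoin E (Set.range η) = ⊤ := by
    rw [eq_top_iff]
    intro r _
    have h1 : ∀ a : A, algebraMap A R a ∈ IntermediateField.adjoin E (Set.range η) := by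
      intro a
      obtain ⟨G, rfl⟩ := Ideal.Quotient.mk_surjective a
      rw [← haev]
      have h2 : aeval η G ∈ Algebra.adjoin E (Set.range η) := by
        rw [Algebra.adjoin_range_eq_range_aeval]
        exact ⟨G, rfl⟩
      exact IntermediateField.algebra_adjoin_le_adjoin E _ h2
    obtain ⟨a, b, -, rfl⟩ := IsFractionRing.div_surjective (A := A) r
    exact IntermediateField.div_mem _ (h1 a) (h1 b)
  by_cases halg : Algebra.IsAlgebraic E R
  · -- the fibre is isolated
    have hmax : 𝔮.IsMaximal := by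
      have h1 : Algebra.IsIntegral E A := by
        refine ⟨fun a => ?_⟩
        have h2 : IsIntegral E (algebraMap A R a) := (halg.isAlgebraic _).isIntegral
        exact (isIntegral_algebraMap_iff (IsFractionRing.injective A R)).1 h2
      exact Ideal.Quotient.maximal_of_isField 𝔮 (isField_of_isIntegral_of_isField'
        (R := E) (S := A) (Field.toIsField E))
    have hqy : RingHom.ker (aeval y : MvPolynomial (Fin (a + D)) E →ₐ[E] K) = 𝔮 :=
      (hmax.eq_of_le hprime.ne_top hqle).symm
    refine isolated (S := E) (R := K) y ?_ (hmin y hqy) (hDη y hqy) hh fun α hα => ?_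
    · rw [eq_top_iff, ← hgenK, IntermediateField.adjoin_le_iff]
      rintro _ ⟨j, rfl⟩
      have h2 : aeval y (l j) ∈ Algebra.adjoin E (Set.range y) := by
        rw [Algebra.adjoin_range_eq_range_aeval]
        exact ⟨l j, rfl⟩
      have h3 := IntermediateField.algebra_adjoin_le_adjoin E _ h2
      rw [hl2] at h3
      exact h3
    · obtain ⟨f, hf⟩ := exists_prod (A := K) (fun j => algebraMap V K (x j))
        (j0 := j0) (by rw [hj0, map_one]) y (fun i => by
          obtain ⟨j, hj, -⟩ := hl3 i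
          exact ⟨j, hj⟩) m α hα
      rw [← hf]
      exact htr f
  · -- positive dimension
    have h2 : ∀ G : MvPolynomial (Fin N) ℂ, aeval x G = 0 ↔
        aeval (fun j => aeval η (l j)) G = 0 := by
      have h3 : ∀ G : MvPolynomial (Fin N) ℂ,
          aeval (fun j => aeval η (l j)) G = aeval η (ρ G) := by
        intro G
        induction G using MvPolynomial.induction_on with
        | C c =>
          rw [aeval_C, ← algebraMap_eq, AlgHom.commutes,
            IsScalarTower.algebraMap_apply ℂ E (MvPolynomial (Fin (a + D)) E), AlgHom.commutes,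
            ← IsScalarTower.algebraMap_apply ℂ E R]
        | add p q hp hq => rw [map_add, map_add, map_add, hp, hq]
        | mul_X p j hp => rw [map_mul, map_mul, map_mul, hp, hρX, aeval_X]
      have h4 : RingHom.ker (aeval x : MvPolynomial (Fin N) ℂ →ₐ[ℂ] V) ≤
          𝔮.comap (ρ : MvPolynomial (Fin N) ℂ →+* MvPolynomial (Fin (a + D)) E) := by
        refine hcomp.2 ⟨Ideal.IsPrime.comap _, ?_⟩ ?_
        · rw [Ideal.span_le]
          intro F hF
          refine hq.1.2 ?_
          rw [h𝔞]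
          exact Ideal.subset_span (Or.inl ⟨F, hF, rfl⟩)
        · intro G hG
          have h5 : aeval y (ρ G) = 0 := hqle hG
          rw [hcompat] at h5
          exact (map_eq_zero _).1 h5
      intro G
      rw [h3]
      constructor
      · intro h5
        have h6 : ρ G ∈ RingHom.ker (aeval η : MvPolynomial (Fin (a + D)) E →ₐ[E] R) := by
          rw [hker]
          exact h4 h5
        exact h6
      · intro h5
        have h6 : ρ G ∈ RingHom.ker (aeval η : MvPolynomial (Fin (a + D)) E →ₐ[E] R) := h5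
        rw [hker] at h6
        have h7 : aeval y (ρ G) = 0 := hqle h6
        rw [hcompat] at h7
        exact (map_eq_zero _).1 h7
    obtain ⟨φ, hφ⟩ := Pool.Agent.Y362.NT.exists_hom x (fun j => aeval η (l j)) hx h2
    let _ : Algebra V R := φ.toRingHom.toAlgebra
    have : IsScalarTower ℂ V R := IsScalarTower.of_algebraMap_eq fun c => (φ.commutes c).symm
    refine posdim (V := V) (E := E) (R := R) hn hω hω0 hj0 hreg η (fun i => ?_) hgenR halg
      (hmin η hker) (hDη η hker)
    obtain ⟨j, -, hj⟩ := hl3 i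
    refine ⟨j, ?_⟩
    change φ (x j) = η i
    rw [hφ, hj, aeval_X]

end Pool.Agent.U598.IK
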