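import Pool.Agent.U598.IK.Kneser

/-!
Kneser's theorem for field extensions and null traces: if the trace form with a nonzero weight
vanishes on a product of linear systems, then there is an intermediate field over which the spans
of the linear systems have small dimension.
-/

set_option autoImplicit false

open Module Pointwise

namespace Pool.Agent.U598.IK

theorem nice_field (E K : Type*) [Field E] [Field K] [CharZero E] [Algebra E K]
    [FiniteDimensional E K] : Nice E K := by
  refine ⟨?_, 1, fun _ => ⊥, ?_, ?_⟩
  · have h1 : Finite (IntermediateField E K) :=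
      (Field.exists_primitive_element_iff_finite_intermediateField E K).1
        ⟨inferInstance, Field.exists_primitive_element E K⟩
    exact Finite.of_equiv _ (subalgebraEquivIntermediateField (K := E) (L := K)).toEquiv.symm
  · intro a ha
    refine ⟨0, ?_⟩
    rw [isUnit_iff_ne_zero, not_not] at ha
    rw [ha]
    exact Submodule.zero_mem _
  · intro i a ha
    rw [(Submodule.mem_bot E).1 ha]
    exact not_isUnit_zero

section

variable {L K : Type*} [Field L] [CharZero L] [Field K] [Algebra L K] [FiniteDimensional L K]

/-- **Null traces.** -/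
theorem null_trace {m : ℕ} (A : Set K) (h1 : (1 : K) ∈ A) {h : K} (hh : h ≠ 0)
    (htr : ∀ f : Fin m → K, (∀ i, f i ∈ A) → Algebra.trace L K ((∏ i, f i) * h) = 0) :
    ∃ E : IntermediateField L K,
      (∀ f : Fin m → K, (∀ i, f i ∈ A) → Algebra.trace E K ((∏ i, f i) * h) = 0) ∧
      ∀ e t : ℕ, t * e ≤ m →
        t * (finrank E (Submodule.span E A ^ e : Submodule E K) - 1) + 2 ≤ finrank E K := by
  classical
  obtain ⟨S, hS⟩ : ∃ S : Set K, S = A ^ m := ⟨_, rfl⟩
  have hS' : ∀ y, y ∈ S ↔ ∃ f : Fin m → K, (∀ i, f i ∈ A) ∧ ∏ i, f i = y := by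
    intro y
    rw [hS, Set.mem_pow]
    constructor
    · rintro ⟨f, hf⟩
      refine ⟨fun i => f i, fun i => (f i).2, ?_⟩
      rw [← hf, List.prod_ofFn]
    · rintro ⟨f, hf, hy⟩
      refine ⟨fun i => ⟨f i, hf i⟩, ?_⟩
      rw [List.prod_ofFn, hy]
  obtain ⟨P, hP⟩ : ∃ P : Submodule L K, P = Submodule.span L S := ⟨_, rfl⟩
  have hlam : ∀ v ∈ P, Algebra.trace L K (v * h) = 0 := by
    intro v hv
    rw [hP] at hv
    induction hv using Submodule.span_induction with
    | mem x hx =>
      obtain ⟨f, hf, rfl⟩ := (hS' x).1 hx
      exact htr f hf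
    | zero => rw [zero_mul, map_zero]
    | add x y _ _ hx hy => rw [add_mul, map_add, hx, hy, add_zero]
    | smul c x _ hx => rw [smul_mul_assoc, map_smul, hx, smul_zero]
  let St : Subalgebra L K :=
    { carrier := {z | ∀ v ∈ P, z * v ∈ P}
      mul_mem' := fun {a b} ha hb v hv => by
        rw [mul_assoc]
        exact ha _ (hb v hv)
      add_mem' := fun {a b} ha hb v hv => by
        rw [add_mul]
        exact P.add_mem (ha v hv) (hb v hv)
      algebraMap_mem' := fun c v hv => by
        rw [← Algebra.smul_def]
        exact P.smul_mem c hv }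
  let E : IntermediateField L K := St.toIntermediateField fun x hx =>
    Subalgebra.inv_mem_of_algebraic (A := St) (x := ⟨x, hx⟩) (Algebra.IsAlgebraic.isAlgebraic x)
  have hE : ∀ z : K, z ∈ E ↔ ∀ v ∈ P, z * v ∈ P := fun z => Iff.rfl
  have hPE : ∀ v, v ∈ Submodule.span E S ↔ v ∈ P := by
    intro v
    constructor
    · intro hv
      induction hv using Submodule.span_induction with
      | mem x hx =>
        rw [hP]
        exact Submodule.subset_span hx
      | zero => exact P.zero_mem
      | add x y _ _ hx hy => exact P.add_mem hx hy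
      | smul c x _ hx => exact (hE c).1 c.2 x hx
    · intro hv
      rw [hP] at hv
      exact Submodule.span_le_restrictScalars L E S hv
  have hker : ∀ v ∈ P, Algebra.trace E K (v * h) = 0 := by
    intro v hv
    have hnd := traceForm_nondegenerate L E
    refine hnd.1 _ fun e => ?_
    rw [Algebra.traceForm_apply, mul_comm, ← smul_eq_mul, ← map_smul, Algebra.trace_trace]
    have h2 : e • (v * h) = ((e : K) * v) * h := by
      rw [mul_assoc]
      rfl
    rw [h2]
    exact hlam _ ((hE e).1 e.2 v hv)
  have hspow : (Submodule.span E A ^ m : Submodule E K) = Submodule.span E S := by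
    rw [hS, Submodule.span_pow]
  have hlt : finrank E (Submodule.span E A ^ m : Submodule E K) < finrank E K := by
    have h5 : Submodule.span E S < ⊤ := by
      rw [lt_top_iff_ne_top]
      intro htop
      apply hh
      have hnd := traceForm_nondegenerate E K
      refine hnd.1 _ fun v => ?_
      rw [Algebra.traceForm_apply, mul_comm]
      refine hker v ((hPE v).1 ?_)
      rw [htop]
      trivial
    have h6 := Submodule.finrank_lt_finrank_of_lt h5
    rwa [finrank_top, ← hspow] at h6
  have hone : (1 : Submodule E K) ≤ Submodule.span E A := by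
    rw [Submodule.one_le]
    exact Submodule.subset_span h1
  refine ⟨E, fun f hf => hker _ ?_, fun e t het => ?_⟩
  · rw [hP]
    exact Submodule.subset_span ((hS' _).2 ⟨f, hf, rfl⟩)
  · have hle : (Submodule.span E A ^ (e * t) : Submodule E K) ≤ Submodule.span E A ^ m :=
      pow_le_pow_right₀ hone (by rw [mul_comm]; exact het)
    obtain ⟨h3, -⟩ := kneser_prod (F := E) (A := K) (nice_field E K)
      (fun _ : Fin t => (Submodule.span E A ^ e : Submodule E K)) Finset.univ
      (fun i _ => ⟨1, by
        have h2 : (1 : Submodule E K) ≤ Submodule.span E A ^ e := one_le_pow₀ hone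
        exact Submodule.one_le.1 h2, isUnit_one⟩) (by
        intro z hz
        rw [Finset.prod_const, Finset.card_univ, Fintype.card_fin, ← pow_mul] at hz
        have h4 : z ∈ E := by
          rw [hE]
          intro v hv
          rw [← hPE, ← hspow] at hv ⊢
          obtain ⟨k, hk⟩ := Nat.exists_eq_add_of_le (show e * t ≤ m by rw [mul_comm]; exact het)
          rw [hk, pow_add] at hv ⊢
          refine Submodule.mul_induction_on hv ?_ ?_
          · intro a ha b hb
            rw [← mul_assoc]
            exact Submodule.mul_mem_mul (hz a ha) hb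
          · intro a b ha hb
            rw [mul_add]
            exact Submodule.add_mem _ ha hb
        rw [Algebra.mem_bot]
        exact ⟨⟨z, h4⟩, rfl⟩)
    rw [Finset.sum_const, Finset.prod_const, Finset.card_univ, Fintype.card_fin, smul_eq_mul,
      ← pow_mul] at h3
    have h5 : finrank E (Submodule.span E A ^ (e * t) : Submodule E K) ≤
        finrank E (Submodule.span E A ^ m : Submodule E K) := Submodule.finrank_mono hle
    have hpos : 1 ≤ finrank E (Submodule.span E A ^ e : Submodule E K) := by
      rw [Nat.one_le_iff_ne_zero]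
      intro h0
      have h6 := Submodule.finrank_eq_zero.1 h0
      have h7 : (1 : K) ∈ (Submodule.span E A ^ e : Submodule E K) :=
        Submodule.one_le.1 (one_le_pow₀ hone)
      rw [h6] at h7
      exact one_ne_zero ((Submodule.mem_bot E).1 h7)
    obtain ⟨k, hk⟩ := Nat.exists_eq_add_of_le hpos
    rw [hk] at h3 ⊢
    rw [Nat.add_sub_cancel_left]
    have h8 : t * (1 + k) = t + t * k := by ring
    omega

end

end Pool.Agent.U598.IK
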