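import Pool.Agent.U598.IK.Wiebe

/-!
The Bezoutian: an isolated common zero of `p` polynomials of the degrees `d_i + 1` in `p` variables
is separated from other common zeros by the polynomials of degree at most `∑ d_i`.
-/

set_option autoImplicit false

open MvPolynomial

namespace Pool.Agent.U598.IK

section

variable {Ω Λ : Type*} [CommRing Ω] [CommRing Λ] [Algebra Ω Λ] {σ : Type*} [Fintype σ]
  [DecidableEq σ]

theorem bez_mono (z : σ → Λ) (a : Ω) (k : ℕ) : ∀ s : σ →₀ ℕ, s.degree = k + 1 →
    ∃ B : σ → MvPolynomial σ Λ, (∀ j, (B j).totalDegree ≤ k) ∧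
      map (algebraMap Ω Λ) (monomial s a) - C (aeval z (monomial s a)) =
        ∑ j, B j * (X j - C (z j)) := by
  induction k with
  | zero =>
    intro s hs
    obtain ⟨i, hi⟩ : ∃ i, s i ≠ 0 := by
      by_contra hcon
      push Not at hcon
      have : s = 0 := Finsupp.ext hcon
      rw [this] at hs
      simp at hs
    obtain ⟨s', rfl⟩ : ∃ s', s = s' + Finsupp.single i 1 :=
      ⟨s - Finsupp.single i 1, (tsub_add_cancel_of_le (by
        rw [Finsupp.single_le_iff]
        omega)).symm⟩
    rw [map_add, Finsupp.degree_single] at hs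
    have h0 : s' = 0 := by
      rw [← Finsupp.degree_eq_zero_iff]
      omega
    subst h0
    refine ⟨fun j => if j = i then C (algebraMap Ω Λ a) else 0, fun j => ?_, ?_⟩
    · dsimp only
      split_ifs
      · rw [totalDegree_C]
      · rw [totalDegree_zero]
    · simp only [ite_mul, zero_mul, Finset.sum_ite_eq', Finset.mem_univ, if_true]
      have h1 : (monomial (0 + Finsupp.single i 1) a : MvPolynomial σ Ω) = C a * X i := by
        rw [zero_add, C_mul_X_eq_monomial]
      rw [h1, map_mul, map_C, map_X, map_mul, aeval_C, aeval_X, map_mul]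
      ring
  | succ k ih =>
    intro s hs
    obtain ⟨i, hi⟩ : ∃ i, s i ≠ 0 := by
      by_contra hcon
      push Not at hcon
      have : s = 0 := Finsupp.ext hcon
      rw [this] at hs
      simp at hs
    obtain ⟨s', rfl⟩ : ∃ s', s = s' + Finsupp.single i 1 :=
      ⟨s - Finsupp.single i 1, (tsub_add_cancel_of_le (by
        rw [Finsupp.single_le_iff]
        omega)).symm⟩
    rw [map_add, Finsupp.degree_single] at hs
    obtain ⟨B, hB1, hB2⟩ := ih s' (by omega)
    refine ⟨fun j => B j * X i + if j = i then C (aeval z (monomial s' a)) else 0,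
      fun j => ?_, ?_⟩
    · refine (totalDegree_add _ _).trans (max_le ?_ ?_)
      · refine (totalDegree_mul _ _).trans (Nat.add_le_add (hB1 j) ?_)
        exact (totalDegree_monomial_le _ _).trans (by simp)
      · split_ifs
        · rw [totalDegree_C]
          exact Nat.zero_le _
        · rw [totalDegree_zero]
          exact Nat.zero_le _
    · simp only [add_mul, ite_mul, zero_mul, Finset.sum_add_distrib, Finset.sum_ite_eq',
        Finset.mem_univ, if_true]
      have h1 : (monomial (s' + Finsupp.single i 1) a : MvPolynomial σ Ω) =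
          monomial s' a * X i := by
        rw [X, monomial_mul, mul_one]
      have h2 : ∑ j, B j * X i * (X j - C (z j)) = X i * ∑ j, B j * (X j - C (z j)) := by
        rw [Finset.mul_sum]
        exact Finset.sum_congr rfl fun j _ => by ring
      rw [h2, ← hB2, h1, map_mul, map_X, map_mul, aeval_X, map_mul]
      ring

theorem bez (z : σ → Λ) (d : ℕ) (F : MvPolynomial σ Ω) (hF : F.totalDegree ≤ d + 1) :
    ∃ B : σ → MvPolynomial σ Λ, (∀ j, (B j).totalDegree ≤ d) ∧
      map (algebraMap Ω Λ) F - C (aeval z F) = ∑ j, B j * (X j - C (z j)) := by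
  have key : ∀ s ∈ F.support, ∃ B : σ → MvPolynomial σ Λ, (∀ j, (B j).totalDegree ≤ d) ∧
      map (algebraMap Ω Λ) (monomial s (coeff s F)) - C (aeval z (monomial s (coeff s F))) =
        ∑ j, B j * (X j - C (z j)) := by
    intro s hs
    have h1 : s.degree ≤ d + 1 := (le_totalDegree hs).trans hF
    rcases Nat.eq_zero_or_pos s.degree with h | h
    · rw [Finsupp.degree_eq_zero_iff] at h
      subst h
      refine ⟨fun _ => 0, fun _ => by simp, ?_⟩
      have h2 : (monomial 0 (coeff 0 F) : MvPolynomial σ Ω) = C (coeff 0 F) := rfl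
      rw [h2, map_C, aeval_C, sub_self]
      simp
    · obtain ⟨k, hk⟩ : ∃ k, s.degree = k + 1 := ⟨s.degree - 1, by omega⟩
      obtain ⟨B, hB1, hB2⟩ := bez_mono z (coeff s F) k s hk
      exact ⟨B, fun j => (hB1 j).trans (by omega), hB2⟩
  choose! B hB1 hB2 using key
  refine ⟨fun j => ∑ s ∈ F.support, B s j, fun j =>
    totalDegree_finsetSum_le fun s hs => hB1 s hs j, ?_⟩
  conv_lhs => rw [F.as_sum]
  rw [map_sum, map_sum, map_sum, ← Finset.sum_sub_distrib]
  rw [Finset.sum_congr rfl fun s hs => hB2 s hs, Finset.sum_comm]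
  exact Finset.sum_congr rfl fun j _ => by rw [Finset.sum_mul]

theorem det_deg {Λ : Type*} [CommRing Λ] {τ : Type*} {p : ℕ} (dd : Fin p → ℕ)
    (B : Matrix (Fin p) (Fin p) (MvPolynomial τ Λ)) (hB : ∀ i j, (B i j).totalDegree ≤ dd i) :
    B.det.totalDegree ≤ ∑ i, dd i := by
  rw [Matrix.det_apply]
  refine totalDegree_finsetSum_le fun g _ => ?_
  have h1 : (∏ i, B (g i) i).totalDegree ≤ ∑ i, dd i := by
    refine (totalDegree_finsetProd _ _).trans ((Finset.sum_le_sum fun i _ => hB (g i) i).trans ?_)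
    exact (Equiv.sum_comp g dd).le
  rcases Int.units_eq_one_or (Equiv.Perm.sign g) with h | h
  · rw [h, one_smul]
    exact h1
  · rw [h, Units.neg_smul, one_smul, totalDegree_neg]
    exact h1

end

section

variable {Ω : Type*} [Field Ω]

/-- **Isolated zeros.** -/
theorem sep {p m : ℕ} (dd : Fin p → ℕ) (hm : ∑ i, dd i ≤ m) {ι : Type*} [Fintype ι]
    [DecidableEq ι] (P : ι → Fin p → Ω) (hinj : Function.Injective P)
    (F : Fin p → MvPolynomial (Fin p) Ω) (hdeg : ∀ i, (F i).totalDegree ≤ dd i + 1) (hF : ∀ s i, eval (P s) (F i) = 0) (τ : ι)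
    (t : ℕ) (v : MvPolynomial (Fin p) Ω) (hv : eval (P τ) v ≠ 0)
    (hiso : ∀ j, v * (X j - C (P τ j)) ^ (t + 1) ∈ Ideal.span (Set.range F)) (c : ι → Ω)
    (hc : ∀ α : Fin p →₀ ℕ, α.degree ≤ m → ∑ s, c s * ∏ j, P s j ^ α j = 0) : c τ = 0 := by
  classical
  by_contra hcτ
  -- the Bezoutian
  choose B hB1 hB2 using fun i => bez (Λ := MvPolynomial (Fin p) Ω) (fun j => X j) (dd i) (F i)
    (hdeg i)
  obtain ⟨D, hD⟩ : ∃ D : Matrix (Fin p) (Fin p) (MvPolynomial (Fin p) (MvPolynomial (Fin p) Ω)),
    D = Matrix.of B := ⟨_, rfl⟩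
  have hDdeg : D.det.totalDegree ≤ m := (det_deg dd D fun i j => by
    rw [hD]
    exact hB1 i j).trans hm
  obtain ⟨q, hq⟩ : ∃ q : ι → Fin p → MvPolynomial (Fin p) Ω, q = fun s j => C (P s j) := ⟨_, rfl⟩
  obtain ⟨N, hN⟩ : ∃ N : ι → Matrix (Fin p) (Fin p) (MvPolynomial (Fin p) Ω),
    N = fun s => D.map (eval (q s)) := ⟨_, rfl⟩
  have hNdet : ∀ s, (N s).det = eval (q s) D.det := fun s => by
    rw [hN, RingHom.map_det]
    rfl
  have hNrel : ∀ s i, ∑ j, N s i j * (X j - C (P s j)) = F i := by
    intro s i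
    have h1 := congrArg (eval (q s)) (hB2 i)
    rw [map_sub, eval_C, map_sum] at h1
    have h2 : eval (q s) (map (algebraMap Ω (MvPolynomial (Fin p) Ω)) (F i)) = 0 := by
      rw [eval_map]
      have h3 : eval₂ (algebraMap Ω (MvPolynomial (Fin p) Ω)) (q s) (F i) =
          C (eval (P s) (F i)) := by
        rw [hq, eval, coe_eval₂Hom, hom_eval₂]
        rfl
      rw [h3, hF, map_zero]
    have h4 : aeval (fun j => (X j : MvPolynomial (Fin p) Ω)) (F i) = F i := by
      have h5 := aeval_X_left_apply (F i)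
      exact h5
    rw [h2, h4, zero_sub] at h1
    have h6 : ∑ j, N s i j * (X j - C (P s j)) =
        -∑ j, eval (q s) (B i j * (X j - C (X j))) := by
      rw [← Finset.sum_neg_distrib]
      refine Finset.sum_congr rfl fun j _ => ?_
      rw [map_mul, map_sub, eval_X, eval_C, hN, hD, hq]
      change eval _ (B i j) * _ = _
      ring
    rw [h6, ← h1, neg_neg]
  -- the relation
  have hrel : ∑ s, C (c s) * (N s).det = 0 := by
    simp only [hNdet, eval_eq', Finset.mul_sum]
    rw [Finset.sum_comm]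
    refine Finset.sum_eq_zero fun α hα => ?_
    have h1 : α.degree ≤ m := (le_totalDegree hα).trans hDdeg
    have h2 := congrArg (C : Ω → MvPolynomial (Fin p) Ω) (hc α h1)
    rw [map_sum, map_zero] at h2
    calc ∑ s, C (c s) * (coeff α D.det * ∏ j, q s j ^ α j) =
        coeff α D.det * ∑ s, C (c s * ∏ j, P s j ^ α j) := by
          rw [Finset.mul_sum]
          refine Finset.sum_congr rfl fun s _ => ?_
          rw [hq, map_mul, map_prod]
          simp only [map_pow]
          ring
      _ = 0 := by rw [h2, mul_zero]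
  -- the other points
  have hother : ∀ s, s ≠ τ → ∃ u : MvPolynomial (Fin p) Ω, eval (P τ) u ≠ 0 ∧
      u * (N s).det ∈ Ideal.span (Set.range F) := by
    intro s hs
    obtain ⟨j, hj⟩ : ∃ j, P s j ≠ P τ j := by
      by_contra hcon
      push Not at hcon
      exact hs (hinj (funext hcon))
    refine ⟨X j - C (P s j), ?_, ?_⟩
    · rw [map_sub, eval_X, eval_C]
      exact sub_ne_zero.2 fun h => hj h.symm
    · have h1 : Matrix.mulVec ((N s).adjugate * N s) (fun j => X j - C (P s j)) j =
          Matrix.mulVec ((N s).det • (1 : Matrix (Fin p) (Fin p) (MvPolynomial (Fin p) Ω)))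
            (fun j => X j - C (P s j)) j := by
        rw [Matrix.adjugate_mul]
      rw [← Matrix.mulVec_mulVec, Matrix.smul_mulVec, Matrix.one_mulVec, Pi.smul_apply,
        smul_eq_mul, mul_comm] at h1
      rw [← h1, Matrix.mulVec, dotProduct]
      refine Ideal.sum_mem _ fun i _ => Ideal.mul_mem_left _ _ ?_
      have h2 : Matrix.mulVec (N s) (fun j => X j - C (P s j)) i = F i := hNrel s i
      rw [h2]
      exact Ideal.subset_span ⟨i, rfl⟩
  choose! u hu1 hu2 using hother
  obtain ⟨U, hU⟩ : ∃ U : MvPolynomial (Fin p) Ω, U = ∏ s ∈ Finset.univ.erase τ, u s := ⟨_, rfl⟩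
  have hU0 : eval (P τ) U ≠ 0 := by
    rw [hU, map_prod]
    exact Finset.prod_ne_zero_iff.2 fun s hs => hu1 s (Finset.ne_of_mem_erase hs)
  have hUτ : U * (N τ).det ∈ Ideal.span (Set.range F) := by
    have h1 : C (c τ) * (U * (N τ).det) ∈ Ideal.span (Set.range F) := by
      have h2 : C (c τ) * (U * (N τ).det) =
          -∑ s ∈ Finset.univ.erase τ, C (c s) * (U * (N s).det) := by
        have h3 : ∑ s, C (c s) * (U * (N s).det) = 0 := by
          calc ∑ s, C (c s) * (U * (N s).det) = U * ∑ s, C (c s) * (N s).det := by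
                rw [Finset.mul_sum]
                exact Finset.sum_congr rfl fun s _ => by ring
            _ = 0 := by rw [hrel, mul_zero]
        rw [← Finset.add_sum_erase _ _ (Finset.mem_univ τ)] at h3
        exact eq_neg_of_add_eq_zero_left h3
      rw [h2]
      refine neg_mem (Ideal.sum_mem _ fun s hs => Ideal.mul_mem_left _ _ ?_)
      have h4 : U = u s * ∏ s' ∈ (Finset.univ.erase τ).erase s, u s' := by
        rw [hU, Finset.mul_prod_erase _ _ hs]
      rw [h4]
      have h5 : u s * (∏ s' ∈ (Finset.univ.erase τ).erase s, u s') * (N s).det =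
          (∏ s' ∈ (Finset.univ.erase τ).erase s, u s') * (u s * (N s).det) := by ring
      rw [h5]
      exact Ideal.mul_mem_left _ _ (hu2 s (Finset.ne_of_mem_erase hs))
    have h6 : U * (N τ).det = C (c τ)⁻¹ * (C (c τ) * (U * (N τ).det)) := by
      rw [← mul_assoc, ← C_mul, inv_mul_cancel₀ hcτ, C_1, one_mul]
    rw [h6]
    exact Ideal.mul_mem_left _ _ h1
  -- the translation
  let T : MvPolynomial (Fin p) Ω →ₐ[Ω] MvPolynomial (Fin p) Ω :=
    aeval fun j => X j + C (P τ j)
  have hTX : ∀ j, T (X j - C (P τ j)) = X j := by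
    intro j
    change aeval _ _ = _
    rw [map_sub, aeval_X, aeval_C, algebraMap_eq, add_sub_cancel_right]
  have hTc : ∀ g : MvPolynomial (Fin p) Ω, coeff 0 (T g) = eval (P τ) g := by
    intro g
    rw [← constantCoeff_eq]
    change ((constantCoeff : MvPolynomial (Fin p) Ω →+* Ω).comp T.toRingHom) g = _
    congr 1
    refine MvPolynomial.ringHom_ext (fun a => ?_) fun j => ?_
    · change constantCoeff (T (C a)) = _
      rw [← algebraMap_eq, AlgHom.commutes, algebraMap_eq, constantCoeff_C, eval_C]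
    · change constantCoeff (T (X j)) = _
      change constantCoeff (aeval _ (X j)) = _
      rw [aeval_X, map_add, constantCoeff_X, constantCoeff_C, zero_add, eval_X]
  have hTI : ∀ g ∈ Ideal.span (Set.range F), ∃ e : Fin p → MvPolynomial (Fin p) Ω,
      T g = ∑ j, e j * T (F j) := by
    intro g hg
    obtain ⟨e, he⟩ := (Ideal.mem_span_range_iff_exists_fun (R := MvPolynomial (Fin p) Ω)).1 hg
    exact ⟨fun j => T (e j), by rw [← he, map_sum]; exact Finset.sum_congr rfl fun j _ => map_mul _ _ _⟩
  choose Cm hCm using fun j => hTI _ (hiso j)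
  obtain ⟨e, he⟩ := hTI _ hUτ
  refine wiebe (t := t) (F := fun i => T (F i)) (B := (N τ).map T) (C := Matrix.of Cm)
    (v := T v) (u := T U) (fun i => ?_) (by rw [hTc]; exact hv) (fun i => ?_)
    (by rw [hTc]; exact hU0) e ?_
  · rw [← hNrel τ i, map_sum]
    refine Finset.sum_congr rfl fun j _ => ?_
    rw [map_mul, hTX]
    rfl
  · have h1 := hCm i
    rw [map_mul, map_pow, hTX] at h1
    exact h1.symm
  · rw [← he, map_mul]
    congr 1
    have h1 := (AlgHom.map_det T (N τ)).symm
    exact h1

end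

end Pool.Agent.U598.IK
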