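import Mathlib

/-!
The dimension of the prime ideals of a polynomial ring, and the number of monomials in algebraically
independent coordinates.
-/

set_option autoImplicit false

open MvPolynomial

namespace Pool.Agent.U598.IK

section

variable {S : Type*} [Field S] {s : ℕ}

/-- there are `r` elements which are algebraically independent modulo the ideal -/
def Ind (𝔭 : Ideal (MvPolynomial (Fin s) S)) (r : ℕ) : Prop :=
  ∃ u : Fin r → MvPolynomial (Fin s) S, ∀ P : MvPolynomial (Fin r) S, P ≠ 0 → aeval u P ∉ 𝔭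

theorem Ind.mono {𝔮 𝔭 : Ideal (MvPolynomial (Fin s) S)} (h : 𝔮 ≤ 𝔭) {r : ℕ} (hp : Ind 𝔭 r) :
    Ind 𝔮 r := by
  obtain ⟨u, hu⟩ := hp
  exact ⟨u, fun P hP hq => hu P hP (h hq)⟩

theorem ind_zero {𝔭 : Ideal (MvPolynomial (Fin s) S)} (h : 𝔭 ≠ ⊤) : Ind 𝔭 0 := by
  refine ⟨Fin.elim0, fun P hP hmem => h ?_⟩
  obtain ⟨a, rfl⟩ := C_surjective (Fin 0) P
  rw [aeval_C] at hmem
  refine Ideal.eq_top_of_isUnit_mem _ hmem ?_
  have ha : a ≠ 0 := by
    rintro rfl
    exact hP C_0
  exact (isUnit_iff_ne_zero.2 ha).map (algebraMap S (MvPolynomial (Fin s) S))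

/-- the evaluation at a further element -/
theorem aeval_cons {B : Type*} [CommRing B] [Algebra S B] {r : ℕ} (x : B) (u : Fin r → B)
    (P : MvPolynomial (Fin (r + 1)) S) :
    aeval (Fin.cons x u : Fin (r + 1) → B) P =
      Polynomial.eval₂ (aeval u : MvPolynomial (Fin r) S →ₐ[S] B).toRingHom x
        (finSuccEquiv S r P) := by
  induction P using MvPolynomial.induction_on with
  | C a =>
    rw [aeval_C, finSuccEquiv_apply, eval₂Hom_C]
    simp
  | add p q hp hq => rw [map_add, map_add, Polynomial.eval₂_add, hp, hq]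
  | mul_X p j hp =>
    rw [map_mul, map_mul, Polynomial.eval₂_mul, hp, aeval_X]
    congr 1
    refine Fin.cases ?_ (fun j => ?_) j
    · rw [finSuccEquiv_X_zero, Polynomial.eval₂_X, Fin.cons_zero]
    · rw [finSuccEquiv_X_succ, Polynomial.eval₂_C, Fin.cons_succ]
      simp

theorem Ind.lt {𝔮 𝔭 : Ideal (MvPolynomial (Fin s) S)} (hq : 𝔮.IsPrime) (h : 𝔮 < 𝔭) {r : ℕ}
    (hp : Ind 𝔭 r) : Ind 𝔮 (r + 1) := by
  obtain ⟨u, hu⟩ := hp
  obtain ⟨x, hxp, hxq⟩ := Set.exists_of_ssubset h
  refine ⟨Fin.cons x u, fun P hP hmem => ?_⟩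
  rw [aeval_cons] at hmem
  have key : ∀ (k : ℕ) (Q : Polynomial (MvPolynomial (Fin r) S)), Q.natDegree ≤ k → Q ≠ 0 →
      Polynomial.eval₂ (aeval u : MvPolynomial (Fin r) S →ₐ[S] _).toRingHom x Q ∉ 𝔮 := by
    intro k
    induction k with
    | zero =>
      intro Q hQ hQ0 hm
      rw [Polynomial.eq_C_of_natDegree_le_zero hQ, Polynomial.eval₂_C] at hm
      refine hu (Q.coeff 0) (fun h0 => hQ0 ?_) (h.le hm)
      rw [Polynomial.eq_C_of_natDegree_le_zero hQ, h0, Polynomial.C_0]
    | succ k ih =>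
      intro Q hQ hQ0 hm
      have h1 := Polynomial.divX_mul_X_add Q
      rw [← h1, Polynomial.eval₂_add, Polynomial.eval₂_mul, Polynomial.eval₂_X,
        Polynomial.eval₂_C] at hm
      by_cases h0 : Q.coeff 0 = 0
      · rw [h0, map_zero, add_zero] at hm
        have h2 := (hq.mem_or_mem hm).resolve_right hxq
        refine ih Q.divX ?_ ?_ h2
        · rw [Polynomial.natDegree_divX_eq_natDegree_tsub_one]
          omega
        · intro h3
          apply hQ0
          rw [← h1, h3, h0]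
          simp
      · refine hu _ h0 ?_
        have h2 := 𝔭.sub_mem (h.le hm) (𝔭.mul_mem_left
          (Polynomial.eval₂ (aeval u : MvPolynomial (Fin r) S →ₐ[S] _).toRingHom x Q.divX) hxp)
        rw [add_sub_cancel_left] at h2
        exact h2
  refine key _ _ le_rfl ?_ hmem
  rwa [Ne, EmbeddingLike.map_eq_zero_iff]

theorem Ind.coords {𝔭 : Ideal (MvPolynomial (Fin s) S)} (hp : 𝔭.IsPrime) {r : ℕ}
    (h : Ind 𝔭 r) : ∃ T : Fin r → Fin s, Function.Injective T ∧
      ∀ P : MvPolynomial (Fin r) S, P ≠ 0 → aeval (fun i => X (T i)) P ∉ 𝔭 := by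
  classical
  obtain ⟨u, hu⟩ := h
  have hdom : IsDomain (MvPolynomial (Fin s) S ⧸ 𝔭) := Ideal.Quotient.isDomain 𝔭
  obtain ⟨y, hy⟩ : ∃ y : Fin s → MvPolynomial (Fin s) S ⧸ 𝔭,
    y = fun i => Ideal.Quotient.mk 𝔭 (X i) := ⟨_, rfl⟩
  have hmk : ∀ {ρ : Type} (w : ρ → MvPolynomial (Fin s) S) (P : MvPolynomial ρ S),
      aeval (fun i => Ideal.Quotient.mk 𝔭 (w i)) P = Ideal.Quotient.mk 𝔭 (aeval w P) := by
    intro ρ w P
    exact (comp_aeval_apply (φ := Ideal.Quotient.mkₐ S 𝔭) w P).symm
  have hind : AlgebraicIndependent S (fun i => Ideal.Quotient.mk 𝔭 (u i)) := by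
    rw [algebraicIndependent_iff]
    intro P hP
    by_contra hne
    rw [hmk, Ideal.Quotient.eq_zero_iff_mem] at hP
    exact hu P hne hP
  have htop : Algebra.adjoin S (Set.range y) = ⊤ := by
    rw [Algebra.adjoin_range_eq_range_aeval, eq_top_iff]
    intro a _
    obtain ⟨G, rfl⟩ := Ideal.Quotient.mk_surjective a
    refine ⟨G, ?_⟩
    rw [hy]
    change aeval _ G = _
    rw [hmk, aeval_X_left_apply]
  have halg : Algebra.IsAlgebraic (Algebra.adjoin S (Set.range y))
      (MvPolynomial (Fin s) S ⧸ 𝔭) := by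
    rw [htop]
    refine ⟨fun a => ?_⟩
    exact isAlgebraic_algebraMap (⟨a, trivial⟩ : (⊤ : Subalgebra S (MvPolynomial (Fin s) S ⧸ 𝔭)))
  obtain ⟨t, ht, hb⟩ := exists_isTranscendenceBasis_subset (R := S) (Set.range y)
  have hle := hind.lift_cardinalMk_le_trdeg
  rw [← hb.cardinalMk_eq_trdeg] at hle
  obtain ⟨f⟩ := Cardinal.lift_mk_le'.1 hle
  choose T hT using fun i => ht (f i).2
  refine ⟨T, ?_, fun P hP hmem => ?_⟩
  · intro i j hij
    apply f.injective
    apply Subtype.ext
    rw [← hT i, ← hT j, hij]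
  · have h1 : AlgebraicIndependent S (fun i => ((f i : t) : MvPolynomial (Fin s) S ⧸ 𝔭)) :=
      hb.1.comp f f.injective
    rw [algebraicIndependent_iff] at h1
    apply hP
    apply h1
    have h2 : (fun i => ((f i : t) : MvPolynomial (Fin s) S ⧸ 𝔭)) =
        fun i => Ideal.Quotient.mk 𝔭 (X (T i)) := by
      funext i
      rw [← hT i, hy]
    rw [h2, hmk, Ideal.Quotient.eq_zero_iff_mem]
    exact hmem

theorem Ind.le {𝔭 : Ideal (MvPolynomial (Fin s) S)} (hp : 𝔭.IsPrime) {r : ℕ} (h : Ind 𝔭 r) :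
    r ≤ s := by
  obtain ⟨T, hT, -⟩ := h.coords hp
  simpa using Fintype.card_le_of_injective T hT

theorem Ind.pred {𝔭 : Ideal (MvPolynomial (Fin s) S)} {r : ℕ} (h : Ind 𝔭 (r + 1)) : Ind 𝔭 r := by
  obtain ⟨u, hu⟩ := h
  refine ⟨fun i => u i.succ, fun P hP hmem => hu (rename Fin.succ P) ?_ ?_⟩
  · intro h0
    apply hP
    apply rename_injective _ (Fin.succ_injective r)
    rw [h0, map_zero]
  · rw [aeval_rename]
    exact hmem

theorem Ind.of_le {𝔭 : Ideal (MvPolynomial (Fin s) S)} {r r' : ℕ} (h : Ind 𝔭 r') (hr : r ≤ r') :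
    Ind 𝔭 r := by
  obtain ⟨k, rfl⟩ := Nat.exists_eq_add_of_le hr
  clear hr
  induction k with
  | zero => exact h
  | succ k ih => exact ih h.pred

end

section

variable {E S : Type*} [Field E] [Field S] [Algebra E S] {s : ℕ}

theorem Ind.comap {𝔭 : Ideal (MvPolynomial (Fin s) S)} (hp : 𝔭.IsPrime) {r : ℕ} (h : Ind 𝔭 r) :
    Ind (𝔭.comap (map (algebraMap E S))) r := by
  obtain ⟨T, -, hT⟩ := h.coords hp
  refine ⟨fun i => X (T i), fun P hP hmem => hT (map (algebraMap E S) P) ?_ ?_⟩
  · intro h0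
    apply hP
    apply map_injective _ (algebraMap E S).injective
    rw [h0, map_zero]
  · rw [Ideal.mem_comap] at hmem
    have h1 : aeval (fun i => X (T i)) (map (algebraMap E S) P) =
        map (algebraMap E S) (aeval (fun i => X (T i)) P) := by
      have h2 : ∀ P : MvPolynomial (Fin r) E, aeval (fun i => (X (T i) : MvPolynomial (Fin s) S))
          (map (algebraMap E S) P) = map (algebraMap E S) (aeval (fun i => X (T i)) P) := by
        intro P
        induction P using MvPolynomial.induction_on with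
        | C a => rw [map_C, aeval_C, aeval_C, algebraMap_eq, algebraMap_eq, map_C]
        | add p q hp hq => rw [map_add, map_add, map_add, map_add, hp, hq]
        | mul_X p j hp => rw [map_mul, map_mul, map_mul, map_mul, hp, map_X, aeval_X, aeval_X, map_X]
      exact h2 P
    rw [h1]
    exact hmem

end

/-- the number of the monomials of bounded degree in independent elements -/
theorem card_mono {E K : Type*} [Field E] [Field K] [Algebra E K] [FiniteDimensional E K]
    {D e : ℕ} (a : Fin D → K)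
    (ha : ∀ P : MvPolynomial (Fin D) E, P.totalDegree ≤ e → aeval a P = 0 → P = 0)
    (V : Submodule E K) (hV : ∀ α : Fin D →₀ ℕ, α.degree ≤ e → ∏ i, a i ^ α i ∈ V) :
    (D + e).choose e ≤ Module.finrank E V := by
  classical
  obtain ⟨J, hJ⟩ : ∃ J : Finset (Fin (D + 1) →₀ ℕ), J = Finset.finsuppAntidiag Finset.univ e :=
    ⟨_, rfl⟩
  have hcard : J.card = (D + e).choose e := by
    rw [hJ, Finset.card_finsuppAntidiag_nat_eq_choose, Finset.card_univ, Fintype.card_fin]
    congr 1
    omega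
  have hsum : ∀ β ∈ J, β 0 + (Finsupp.tail β).degree = e := by
    intro β hβ
    rw [hJ, Finset.mem_finsuppAntidiag] at hβ
    rw [← hβ.1, Finsupp.degree_eq_sum, Fin.sum_univ_succ]
    rfl
  have hinj : ∀ β ∈ J, ∀ β' ∈ J, Finsupp.tail β = Finsupp.tail β' → β = β' := by
    intro β hβ β' hβ' h
    have h1 := hsum β hβ
    have h2 := hsum β' hβ'
    rw [h] at h1
    have h3 : β 0 = β' 0 := by omega
    rw [← Finsupp.cons_tail β, ← Finsupp.cons_tail β', h, h3]
  let g : J → V := fun β => ⟨∏ i, a i ^ (Finsupp.tail (β : Fin (D + 1) →₀ ℕ)) i,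
    hV _ (by have := hsum _ β.2; omega)⟩
  have hli : LinearIndependent E g := by
    rw [Fintype.linearIndependent_iff]
    intro c hc β0
    obtain ⟨P, hP⟩ : ∃ P : MvPolynomial (Fin D) E,
      P = ∑ β : J, monomial (Finsupp.tail (β : Fin (D + 1) →₀ ℕ)) (c β) := ⟨_, rfl⟩
    have hP0 : P = 0 := by
      refine ha P ?_ ?_
      · rw [hP]
        refine totalDegree_finsetSum_le fun β _ => ?_
        refine (totalDegree_monomial_le _ _).trans ?_
        have := hsum _ β.2
        change (Finsupp.tail (β : Fin (D + 1) →₀ ℕ)).degree ≤ e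
        omega
      · rw [hP, map_sum]
        have h1 := congrArg (fun v : V => (v : K)) hc
        simp only [ZeroMemClass.coe_zero, Submodule.coe_sum, Submodule.coe_smul] at h1
        rw [← h1]
        refine Finset.sum_congr rfl fun β _ => ?_
        rw [aeval_monomial, Algebra.smul_def, Finsupp.prod_fintype _ _ fun _ => pow_zero _]
    have h2 := congrArg (coeff (Finsupp.tail (β0 : Fin (D + 1) →₀ ℕ))) hP0
    rw [hP, coeff_sum, coeff_zero, Finset.sum_eq_single β0] at h2
    · rwa [coeff_monomial, if_pos rfl] at h2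
    · intro β _ hβ
      rw [coeff_monomial, if_neg]
      intro h
      exact hβ (Subtype.ext (hinj _ β.2 _ β0.2 h))
    · intro h
      exact absurd (Finset.mem_univ _) h
  have h1 := hli.fintype_card_le_finrank
  rwa [Fintype.card_coe, hcard] at h1

end Pool.Agent.U598.IK
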