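import Pool.Agent.U598.IK.Bez
import Pool.Agent.U598.IK.Dim

/-!
Points of a finite field extension which are isolated common zeros of polynomials of degree at most
`d + 1` in `p` variables: the monomials of degree at most `p d` are not all orthogonal to a nonzero
element for the trace form. The bound is better if there are many polynomials of smaller degree.
-/

set_option autoImplicit false

open MvPolynomial

namespace Pool.Agent.U598.IK

section

variable {A : Type*} [CommRing A]

theorem exists_pow_of_minimal {I 𝔪 : Ideal A} (h : 𝔪 ∈ I.minimalPrimes) {g : A} (hg : g ∈ 𝔪) :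
    ∃ v ∉ 𝔪, ∃ t : ℕ, v * g ^ (t + 1) ∈ I := by
  have hp : 𝔪.IsPrime := h.isPrime
  by_contra hcon
  push Not at hcon
  have hd : Disjoint (I : Set A) (𝔪.primeCompl ⊔ Submonoid.powers g : Submonoid A) := by
    rw [Set.disjoint_left]
    intro x hxI hx
    obtain ⟨v, hv, y, ⟨t, ht⟩, rfl⟩ := Submonoid.mem_sup.1 hx
    simp only at ht
    refine hcon v hv t ?_
    rw [pow_succ, ht, ← mul_assoc]
    exact I.mul_mem_right _ hxI
  obtain ⟨𝔭, hp1, hp2, hp3⟩ := Ideal.exists_le_prime_disjoint I _ hd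
  have hle : 𝔭 ≤ 𝔪 := by
    intro x hx
    by_contra hxm
    exact Set.disjoint_left.1 hp3 hx ((le_sup_left : 𝔪.primeCompl ≤ _) hxm)
  have h1 : 𝔪 ≤ 𝔭 := h.2 ⟨hp1, hp2⟩ hle
  exact Set.disjoint_left.1 hp3 (h1 hg) ((le_sup_right : Submonoid.powers g ≤ _) ⟨1, pow_one g⟩)

end

section

variable {S : Type*} [Field S] [Infinite S]

/-- A prime ideal which is minimal over a space `W2` of polynomials in `a + D` variables is minimal
over `a` elements of `W1` and `D` elements of `W2`, if the prime ideals over `W1` have dimension at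
most `D`. -/
theorem exists_system {a D : ℕ} (W1 W2 : Submodule S (MvPolynomial (Fin (a + D)) S))
    {𝔪 : Ideal (MvPolynomial (Fin (a + D)) S)}
    (hm : 𝔪 ∈ (Ideal.span (W2 : Set (MvPolynomial (Fin (a + D)) S))).minimalPrimes)
    (hW1 : ∀ w ∈ W1, w ∈ 𝔪)
    (hD : ∀ 𝔭 : Ideal (MvPolynomial (Fin (a + D)) S), 𝔭.IsPrime →
      Ideal.span (W1 : Set (MvPolynomial (Fin (a + D)) S)) ≤ 𝔭 → 𝔭 ≤ 𝔪 → ¬ Ind 𝔭 (D + 1)) :
    ∃ F : Fin (a + D) → MvPolynomial (Fin (a + D)) S,
      (∀ i : Fin (a + D), ((i : ℕ) < a → F i ∈ W1) ∧ (a ≤ (i : ℕ) → F i ∈ W2)) ∧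
      𝔪 ∈ (Ideal.span (Set.range F)).minimalPrimes := by
  have hp : 𝔪.IsPrime := hm.isPrime
  have hWm : ∀ w ∈ W2, w ∈ 𝔪 := fun w hw => hm.1.2 (Ideal.subset_span hw)
  have key : ∀ i : ℕ, i ≤ a + D → ∃ F : Fin i → MvPolynomial (Fin (a + D)) S,
      (∀ j : Fin i, ((j : ℕ) < a → F j ∈ W1) ∧ (a ≤ (j : ℕ) → F j ∈ W2)) ∧
      ∀ 𝔭 : Ideal (MvPolynomial (Fin (a + D)) S), 𝔭.IsPrime → Ideal.span (Set.range F) ≤ 𝔭 →
        𝔭 ≤ 𝔪 → 𝔭 = 𝔪 ∨ ¬ Ind 𝔭 (a + D - i + 1) := by
    intro i
    induction i with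
    | zero =>
      intro _
      refine ⟨Fin.elim0, fun j => j.elim0, fun 𝔭 h _ _ => Or.inr fun hI => ?_⟩
      have := hI.le h
      omega
    | succ i ih =>
      intro hi
      obtain ⟨F, hF, hh⟩ := ih (by omega)
      have hfin : (Ideal.span (Set.range F)).minimalPrimes.Finite :=
        Ideal.finite_minimalPrimes_of_isNoetherianRing _ _
      obtain ⟨W, hW⟩ : ∃ W : Submodule S (MvPolynomial (Fin (a + D)) S),
        W = if i < a then W1 else W2 := ⟨_, rfl⟩
      obtain ⟨T, hT⟩ : ∃ T : Set (Ideal (MvPolynomial (Fin (a + D)) S)),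
        T = {𝔭 ∈ (Ideal.span (Set.range F)).minimalPrimes |
          ¬ Ideal.span (W : Set (MvPolynomial (Fin (a + D)) S)) ≤ 𝔭} := ⟨_, rfl⟩
      have hTfin : T.Finite := hfin.subset (by rw [hT]; exact Set.sep_subset _ _)
      have hTf : Finite T := hTfin
      obtain ⟨g, hgW, hg⟩ : ∃ g ∈ W, ∀ 𝔭 ∈ T, g ∉ 𝔭 := by
        by_contra hcon
        push Not at hcon
        have hcov : ⋃ 𝔭 : T, (((𝔭 : Ideal (MvPolynomial (Fin (a + D)) S)).restrictScalars S).comap
            W.subtype : Set W) = Set.univ := by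
          rw [Set.eq_univ_iff_forall]
          rintro ⟨w, hw⟩
          obtain ⟨𝔭, h1, h2⟩ := hcon w hw
          exact Set.mem_iUnion.2 ⟨⟨𝔭, h1⟩, h2⟩
        obtain ⟨⟨𝔭, h𝔭⟩, h1⟩ := Subspace.exists_eq_top_of_iUnion_eq_univ hcov
        rw [hT] at h𝔭
        refine h𝔭.2 ?_
        rw [Ideal.span_le]
        intro w hw
        have h3 : (⟨w, hw⟩ : W) ∈ (𝔭.restrictScalars S).comap W.subtype := by
          rw [h1]
          trivial
        exact h3
      refine ⟨Fin.snoc F g, fun j => ?_, fun 𝔭 h1 h2 h3 => ?_⟩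
      · refine Fin.lastCases ?_ (fun j => ?_) j
        · rw [Fin.snoc_last, Fin.val_last]
          refine ⟨fun h => ?_, fun h => ?_⟩
          · rw [hW, if_pos h] at hgW
            exact hgW
          · rw [hW, if_neg (by omega)] at hgW
            exact hgW
        · rw [Fin.snoc_castSucc, Fin.val_castSucc]
          exact hF j
      · by_cases h4 : 𝔭 = 𝔪
        · exact Or.inl h4
        · right
          have h5 : Ideal.span (Set.range F) ≤ 𝔭 := by
            refine le_trans (Ideal.span_mono ?_) h2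
            rintro _ ⟨j, rfl⟩
            exact ⟨j.castSucc, by rw [Fin.snoc_castSucc]⟩
          have hgp : g ∈ 𝔭 := h2 (Ideal.subset_span ⟨Fin.last i, by rw [Fin.snoc_last]⟩)
          obtain ⟨𝔮, hq, hq2⟩ := Ideal.exists_minimalPrimes_le h5
          have hqp : 𝔮.IsPrime := hq.isPrime
          have hqm : 𝔮 ≠ 𝔪 := fun h => h4 (le_antisymm h3 (h ▸ hq2))
          have hidx : a + D - (i + 1) + 1 = a + D - i := by omega
          rw [hidx]
          by_cases hqT : Ideal.span (W : Set (MvPolynomial (Fin (a + D)) S)) ≤ 𝔮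
          · by_cases hia : i < a
            · rw [hW, if_pos hia] at hqT
              intro hI
              exact hD 𝔭 h1 (hqT.trans hq2) h3 (hI.of_le (by omega))
            · rw [hW, if_neg hia] at hqT
              exact absurd (le_antisymm h3 (hm.2 ⟨h1, hqT.trans hq2⟩ h3)) h4
          · have hlt : 𝔮 < 𝔭 := by
              refine lt_of_le_of_ne hq2 fun h => hg 𝔮 ?_ (by rw [h]; exact hgp)
              rw [hT]
              exact ⟨hq, hqT⟩
            intro hI
            exact ((hh 𝔮 hqp hq.1.2 (hq2.trans h3)).resolve_left hqm) (hI.lt hqp hlt)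
  obtain ⟨F, hF, hh⟩ := key (a + D) le_rfl
  refine ⟨F, hF, ⟨⟨hp, ?_⟩, ?_⟩⟩
  · rw [Ideal.span_le]
    rintro _ ⟨i, rfl⟩
    by_cases hi : (i : ℕ) < a
    · exact hW1 _ ((hF i).1 hi)
    · exact hWm _ ((hF i).2 (not_lt.1 hi))
  · rintro 𝔭 ⟨h1, h2⟩ h3
    rcases hh 𝔭 h1 h2 h3 with h4 | h4
    · exact h4.ge
    · by_contra h5
      have hlt : 𝔭 < 𝔪 := lt_of_le_not_ge h3 h5
      rw [Nat.sub_self] at h4
      exact h4 ((ind_zero hp.ne_top).lt h1 hlt)

end

section

variable {S R : Type*} [Field S] [CharZero S] [Field R] [Algebra S R] [FiniteDimensional S R]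

/-- the space of the polynomials of degree at most `d + 1` which vanish at the point -/
def van (d : ℕ) {p : ℕ} (η : Fin p → R) : Submodule S (MvPolynomial (Fin p) S) where
  carrier := {F | F.totalDegree ≤ d + 1 ∧ aeval η F = 0}
  add_mem' := fun {F G} hF hG => ⟨(totalDegree_add _ _).trans (max_le hF.1 hG.1), by
    rw [map_add, hF.2, hG.2, add_zero]⟩
  zero_mem' := ⟨by simp, map_zero _⟩
  smul_mem' := fun c F hF => ⟨(totalDegree_smul_le _ _).trans hF.1, by
    rw [map_smul, hF.2, smul_zero]⟩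

/-- the polynomials of degree at most `d + 1` which vanish at the point -/
def low (E : Type*) {R : Type*} [Field E] [Field R] [Algebra E R] (d : ℕ) {s : ℕ} (η : Fin s → R) :
    Set (MvPolynomial (Fin s) E) := {F | F.totalDegree ≤ d + 1 ∧ aeval η F = 0}

/-- **Isolated points of a field extension.** -/
theorem isolated {a D e d m : ℕ} (η : Fin (a + D) → R)
    (hgen : IntermediateField.adjoin S (Set.range η) = ⊤)
    (hmin : RingHom.ker (aeval η : MvPolynomial (Fin (a + D)) S →ₐ[S] R) ∈
      (Ideal.span (low S d η)).minimalPrimes)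
    (hD : ∀ 𝔭 : Ideal (MvPolynomial (Fin (a + D)) S), 𝔭.IsPrime →
      Ideal.span (low S e η) ≤ 𝔭 →
      𝔭 ≤ RingHom.ker (aeval η : MvPolynomial (Fin (a + D)) S →ₐ[S] R) → ¬ Ind 𝔭 (D + 1))
    {c : R} (hc : c ≠ 0)
    (htr : ∀ α : Fin (a + D) →₀ ℕ, α.degree ≤ m →
      Algebra.trace S R ((∏ j, η j ^ α j) * c) = 0) :
    m < a * e + D * d := by
  classical
  by_contra hcon
  push Not at hcon
  obtain ⟨F, hF, hFm⟩ := exists_system (van (S := S) e η) (van (S := S) d η) (𝔪 := RingHom.ker
    (aeval η : MvPolynomial (Fin (a + D)) S →ₐ[S] R)) hmin (fun w hw => hw.2) hD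
  obtain ⟨dd, hdd⟩ : ∃ dd : Fin (a + D) → ℕ,
    dd = fun i : Fin (a + D) => if (i : ℕ) < a then e else d := ⟨_, rfl⟩
  have hsum : ∑ i, dd i ≤ m := by
    refine le_trans (le_of_eq ?_) hcon
    rw [hdd, Fin.sum_univ_eq_sum_range (fun i => if i < a then e else d) (a + D),
      Finset.sum_range_add]
    congr 1
    · rw [Finset.sum_congr rfl fun i hi => if_pos (Finset.mem_range.1 hi)]
      simp
    · rw [Finset.sum_congr rfl fun i _ => if_neg (by omega)]
      simp
  have hFd : ∀ i, (F i).totalDegree ≤ dd i + 1 := fun i => by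
    rw [hdd]
    by_cases hi : (i : ℕ) < a
    · simp only [if_pos hi]
      exact ((hF i).1 hi).1
    · simp only [if_neg hi]
      exact ((hF i).2 (not_lt.1 hi)).1
  have hF0 : ∀ i, aeval η (F i) = 0 := fun i => by
    by_cases hi : (i : ℕ) < a
    · exact ((hF i).1 hi).2
    · exact ((hF i).2 (not_lt.1 hi)).2
  let Ω := AlgebraicClosure S
  obtain ⟨τ⟩ : Nonempty (R →ₐ[S] Ω) := ⟨IsAlgClosed.lift⟩
  obtain ⟨P, hP⟩ : ∃ P : (R →ₐ[S] Ω) → Fin (a + D) → Ω, P = fun s j => s (η j) := ⟨_, rfl⟩
  have hinj : Function.Injective P := by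
    intro s s' h
    have h1 : ∀ x ∈ IntermediateField.adjoin S (Set.range η), s x = s' x := by
      intro x hx
      induction hx using IntermediateField.adjoin_induction with
      | mem x hx =>
        obtain ⟨j, rfl⟩ := hx
        have := congrFun h j
        rw [hP] at this
        exact this
      | algebraMap a => rw [AlgHom.commutes, AlgHom.commutes]
      | add x y _ _ hx hy => rw [map_add, map_add, hx, hy]
      | inv x _ hx => rw [map_inv₀, map_inv₀, hx]
      | mul x y _ _ hx hy => rw [map_mul, map_mul, hx, hy]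
    ext x
    exact h1 x (by rw [hgen]; trivial)
  have hev : ∀ (s : R →ₐ[S] Ω) (G : MvPolynomial (Fin (a + D)) S),
      eval (P s) (map (algebraMap S Ω) G) = s (aeval η G) := by
    intro s G
    rw [eval_map, hP, ← aeval_def]
    exact (comp_aeval_apply (φ := s) η G).symm
  -- the isolated point
  have hg : ∀ j, Polynomial.aeval (X j : MvPolynomial (Fin (a + D)) S) (minpoly S (η j)) ∈
      RingHom.ker (aeval η : MvPolynomial (Fin (a + D)) S →ₐ[S] R) := by
    intro j
    rw [RingHom.mem_ker, ← Polynomial.aeval_algHom_apply, aeval_X]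
    exact minpoly.aeval S (η j)
  choose v hv t hvt using fun j => exists_pow_of_minimal hFm (hg j)
  have hsep : ∀ j, ∃ q : MvPolynomial (Fin (a + D)) Ω, eval (P τ) q ≠ 0 ∧
      map (algebraMap S Ω) (Polynomial.aeval (X j : MvPolynomial (Fin (a + D)) S) (minpoly S (η j))) =
        (X j - C (P τ j)) * q := by
    intro j
    have hsep : ((minpoly S (η j)).map (algebraMap S Ω)).Separable :=
      Polynomial.Separable.map (show (minpoly S (η j)).Separable from
        Algebra.IsSeparable.isSeparable S (η j))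
    have hroot : ((minpoly S (η j)).map (algebraMap S Ω)).IsRoot (P τ j) := by
      rw [Polynomial.IsRoot, Polynomial.eval_map, hP]
      rw [← Polynomial.aeval_def]
      have h1 := Polynomial.aeval_algHom_apply τ (η j) (minpoly S (η j))
      rw [h1, minpoly.aeval, map_zero]
    obtain ⟨f, hf⟩ := Polynomial.dvd_iff_isRoot.2 hroot
    refine ⟨Polynomial.aeval (X j : MvPolynomial (Fin (a + D)) Ω) f, ?_, ?_⟩
    · have h1 : eval (P τ) (Polynomial.aeval (X j : MvPolynomial (Fin (a + D)) Ω) f) =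
          Polynomial.eval (P τ j) f := by
        have h2 := Polynomial.hom_eval₂ f (algebraMap Ω (MvPolynomial (Fin (a + D)) Ω)) (eval (P τ))
          (X j)
        rw [Polynomial.aeval_def, h2, eval_X]
        have h3 : (eval (P τ)).comp (algebraMap Ω (MvPolynomial (Fin (a + D)) Ω)) = RingHom.id Ω := by
          ext a
          simp
        rw [h3]
        rfl
      rw [h1]
      intro h0
      have h2 := hsep.eval₂_derivative_ne_zero (RingHom.id Ω) (x := P τ j) (by
        rw [Polynomial.eval₂_id]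
        exact hroot)
      apply h2
      rw [Polynomial.eval₂_id, hf, Polynomial.derivative_mul, Polynomial.eval_add,
        Polynomial.eval_mul, Polynomial.eval_mul, h0]
      simp
    · have h1 : map (algebraMap S Ω) (Polynomial.aeval (X j : MvPolynomial (Fin (a + D)) S)
          (minpoly S (η j))) = Polynomial.aeval (X j : MvPolynomial (Fin (a + D)) Ω)
          ((minpoly S (η j)).map (algebraMap S Ω)) := by
        rw [Polynomial.aeval_def, Polynomial.hom_eval₂, map_X, Polynomial.aeval_def,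
          Polynomial.eval₂_map]
        congr 1
        ext a
        simp
      rw [h1, hf, map_mul, map_sub, Polynomial.aeval_X, Polynomial.aeval_C, algebraMap_eq]
  choose q hq hq2 using hsep
  obtain ⟨w, hw⟩ : ∃ w : Fin (a + D) → MvPolynomial (Fin (a + D)) Ω,
    w = fun j => map (algebraMap S Ω) (v j) * q j ^ (t j + 1) := ⟨_, rfl⟩
  have hw0 : ∀ j, eval (P τ) (w j) ≠ 0 := by
    intro j
    rw [hw]
    simp only [map_mul, map_pow]
    refine mul_ne_zero ?_ (pow_ne_zero _ (hq j))
    rw [hev]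
    intro h0
    exact hv j ((RingHom.mem_ker).2 ((map_eq_zero τ).1 h0))
  have hwm : ∀ j, w j * (X j - C (P τ j)) ^ (t j + 1) ∈
      Ideal.span (Set.range fun i => map (algebraMap S Ω) (F i)) := by
    intro j
    have h1 := Ideal.mem_map_of_mem (map (algebraMap S Ω)) (hvt j)
    rw [Ideal.map_span, ← Set.range_comp, map_mul, map_pow, hq2] at h1
    have h2 : w j * (X j - C (P τ j)) ^ (t j + 1) =
        map (algebraMap S Ω) (v j) * ((X j - C (P τ j)) * q j) ^ (t j + 1) := by
      rw [hw, mul_pow]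
      ring
    rw [h2]
    exact h1
  obtain ⟨V, hV⟩ : ∃ V : MvPolynomial (Fin (a + D)) Ω, V = ∏ j, w j := ⟨_, rfl⟩
  have h0 := sep (Ω := Ω) (p := a + D) (m := m) dd hsum P hinj
    (fun i => map (algebraMap S Ω) (F i)) (fun i => by
      exact (Finset.sup_mono (support_map_subset _ _)).trans (hFd i))
    (fun s i => by rw [hev, hF0, map_zero]) τ (∑ j, t j) V (by
      rw [hV, map_prod]
      exact Finset.prod_ne_zero_iff.2 fun j _ => hw0 j) (fun j => by
      have h1 : V = w j * ∏ i ∈ Finset.univ.erase j, w i := by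
        rw [hV, Finset.mul_prod_erase _ _ (Finset.mem_univ j)]
      have h2 : ∑ i, t i + 1 = (t j + 1) + ∑ i ∈ Finset.univ.erase j, t i := by
        rw [← Finset.add_sum_erase _ _ (Finset.mem_univ j)]
        ring
      rw [h1, h2, pow_add]
      have h3 : w j * (∏ i ∈ Finset.univ.erase j, w i) * ((X j - C (P τ j)) ^ (t j + 1) *
          (X j - C (P τ j)) ^ (∑ i ∈ Finset.univ.erase j, t i)) =
          ((∏ i ∈ Finset.univ.erase j, w i) *
          (X j - C (P τ j)) ^ (∑ i ∈ Finset.univ.erase j, t i)) *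
          (w j * (X j - C (P τ j)) ^ (t j + 1)) := by ring
      rw [h3]
      exact Ideal.mul_mem_left _ _ (hwm j))
    (fun s => s c) (fun α hα => by
      have h1 := congrArg (algebraMap S Ω) (htr α hα)
      rw [trace_eq_sum_embeddings Ω, map_zero] at h1
      rw [← h1]
      refine Finset.sum_congr rfl fun s _ => ?_
      rw [map_mul, map_prod, hP, mul_comm]
      simp only [map_pow])
  exact hc ((map_eq_zero τ).1 h0)

end

end Pool.Agent.U598.IK
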