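import Mathlib

/-!
Kneser's addition theorem for products of subspaces of a commutative algebra with finitely many
subalgebras (Hou, Leung and Xiang; Beck and Lecouvey; Mirandola and Zémor).
-/

set_option autoImplicit false

open Module

namespace Pool.Agent.U598.IK

section

variable {F A : Type*} [Field F] [Infinite F] [CommRing A] [Algebra F A] [FiniteDimensional F A]

/-- The nonunits of the algebra are contained in finitely many subspaces of nonunits, and there are
finitely many subalgebras. -/
structure Nice (F A : Type*) [Field F] [CommRing A] [Algebra F A] : Prop where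
  fin : Finite (Subalgebra F A)
  non : ∃ (q : ℕ) (U : Fin q → Submodule F A), (∀ a : A, ¬ IsUnit a → ∃ i, a ∈ U i) ∧
    ∀ i, ∀ a ∈ U i, ¬ IsUnit a

/-- the subspace contains a unit -/
def Full (B : Submodule F A) : Prop := ∃ b ∈ B, IsUnit b

omit [Infinite F] [FiniteDimensional F A] in
theorem Full.mono {B C : Submodule F A} (h : Full B) (hBC : B ≤ C) : Full C := by
  obtain ⟨b, hb, hu⟩ := h
  exact ⟨b, hBC hb, hu⟩

omit [Infinite F] [FiniteDimensional F A] in
theorem Full.mul {B C : Submodule F A} (h : Full B) (h' : Full C) : Full (B * C) := by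
  obtain ⟨b, hb, hu⟩ := h
  obtain ⟨c, hc, hv⟩ := h'
  exact ⟨b * c, Submodule.mul_mem_mul hb hc, hu.mul hv⟩

omit [FiniteDimensional F A] in
/-- there are units in `B` outside finitely many subspaces -/
theorem avoid (hA : Nice F A) {B : Submodule F A} (hB : Full B) {ι : Type*} [Finite ι]
    (W : ι → Submodule F A) (hW : ∀ i, ¬ B ≤ W i) : ∃ b ∈ B, IsUnit b ∧ ∀ i, b ∉ W i := by
  obtain ⟨-, q, U, hU1, hU2⟩ := hA
  by_contra hcon
  push Not at hcon
  have hcov : ⋃ i : ι ⊕ Fin q, ((Sum.elim W U i).comap B.subtype : Set B) = Set.univ := by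
    rw [Set.eq_univ_iff_forall]
    rintro ⟨b, hb⟩
    rw [Set.mem_iUnion]
    by_cases hu : IsUnit b
    · obtain ⟨i, hi⟩ := hcon b hb hu
      exact ⟨Sum.inl i, hi⟩
    · obtain ⟨i, hi⟩ := hU1 b hu
      exact ⟨Sum.inr i, hi⟩
  obtain ⟨i, hi⟩ := Subspace.exists_eq_top_of_iUnion_eq_univ hcov
  have hle : B ≤ Sum.elim W U i := by
    intro b hb
    have h1 : (⟨b, hb⟩ : B) ∈ (Sum.elim W U i).comap B.subtype := by
      rw [hi]
      trivial
    exact h1
  rcases i with i | i
  · exact hW i hle
  · obtain ⟨b, hb, hu⟩ := hB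
    exact hU2 i b (hle hb) hu

/-- multiplication by `e` -/
abbrev mulE (e : A) : A →ₗ[F] A := LinearMap.mulLeft F e

omit [Infinite F] [FiniteDimensional F A] in
theorem mulE_inj {e : A} (he : IsUnit e) : Function.Injective (mulE (F := F) e) := by
  intro a b h
  exact he.mul_left_cancel h

omit [Infinite F] in
theorem finrank_map {e : A} (he : IsUnit e) (B : Submodule F A) :
    finrank F (B.map (mulE e)) = finrank F B :=
  (LinearEquiv.finrank_eq (Submodule.equivMapOfInjective _ (mulE_inj he) B)).symm

/-- The transform of Dyson. -/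
theorem transform (hA : Nice F A) (n : ℕ) : ∀ (P B : Submodule F A), finrank F P = n →
    (1 : A) ∈ P → Full B → ∃ (H : Subalgebra F A) (V : Submodule F A), B ≤ V ∧ V ≤ P * B ∧
      (∀ h ∈ H, ∀ v ∈ V, h * v ∈ V) ∧ finrank F P + finrank F B ≤ finrank F V + finrank F H := by
  induction n using Nat.strong_induction_on with
  | _ n ih =>
  intro P B hn h1 hB
  by_cases hcase : ∀ e ∈ B, ∀ a ∈ P, a * e ∈ B
  · refine ⟨Algebra.adjoin F (P : Set A), B, le_rfl, ?_, ?_, ?_⟩
    · intro b hb
      have := Submodule.mul_mem_mul h1 hb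
      rwa [one_mul] at this
    · intro h hh
      induction hh using Algebra.adjoin_induction with
      | mem x hx => exact fun v hv => hcase v hv x hx
      | algebraMap r =>
        intro v hv
        rw [← Algebra.smul_def]
        exact B.smul_mem r hv
      | add x y _ _ hx hy =>
        intro v hv
        rw [add_mul]
        exact B.add_mem (hx v hv) (hy v hv)
      | mul x y _ _ hx hy =>
        intro v hv
        rw [mul_assoc]
        exact hx _ (hy v hv)
    · rw [add_comm]
      refine Nat.add_le_add_left ?_ _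
      exact Submodule.finrank_mono (s := P) (t := Subalgebra.toSubmodule (Algebra.adjoin F (P : Set A)))
        fun x hx => Algebra.subset_adjoin hx
  · let W : Submodule F A :=
      { carrier := {e | ∀ a ∈ P, a * e ∈ B}
        add_mem' := fun {x y} hx hy a ha => by
          rw [mul_add]
          exact B.add_mem (hx a ha) (hy a ha)
        zero_mem' := fun a _ => by
          rw [mul_zero]
          exact B.zero_mem
        smul_mem' := fun c x hx a ha => by
          rw [mul_smul_comm]
          exact B.smul_mem c (hx a ha) }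
    have hW : ¬ B ≤ W := fun h => hcase fun e he => h he
    obtain ⟨e, heB, heu, heW⟩ := avoid hA hB (fun _ : Unit => W) (fun _ => hW)
    have heW' := heW ()
    have hex : ∃ a ∈ P, a * e ∉ B := by
      by_contra hcon
      push Not at hcon
      exact heW' hcon
    obtain ⟨a0, ha0, ha0'⟩ := hex
    let P1 : Submodule F A := P ⊓ B.comap (mulE e)
    let B1 : Submodule F A := B ⊔ P.map (mulE e)
    have hP1 : ∀ a, a ∈ P1 ↔ a ∈ P ∧ e * a ∈ B := fun a => Iff.rfl
    have hlt : finrank F P1 < finrank F P := by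
      refine Submodule.finrank_lt_finrank_of_lt (lt_of_le_of_ne inf_le_left fun h => ?_)
      have h2 : a0 ∈ P1 := by
        rw [h]
        exact ha0
      apply ha0'
      rw [mul_comm]
      exact ((hP1 a0).1 h2).2
    have h11 : (1 : A) ∈ P1 := (hP1 1).2 ⟨h1, by rwa [mul_one]⟩
    have hdim : finrank F P1 + finrank F B1 = finrank F P + finrank F B := by
      have h2 : P1.map (mulE e) = B ⊓ P.map (mulE e) := by
        ext y
        constructor
        · rintro ⟨a, ha, rfl⟩
          exact ⟨((hP1 a).1 ha).2, ⟨a, ((hP1 a).1 ha).1, rfl⟩⟩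
        · rintro ⟨hy, ⟨a, ha, rfl⟩⟩
          exact ⟨a, (hP1 a).2 ⟨ha, hy⟩, rfl⟩
      have h3 := Submodule.finrank_sup_add_finrank_inf_eq B (P.map (mulE e))
      rw [← h2, finrank_map heu, finrank_map heu] at h3
      change finrank F P1 + finrank F (B ⊔ P.map (mulE e) : Submodule F A) = _
      omega
    obtain ⟨H, V, hV1, hV2, hV3, hV4⟩ := ih _ (by rw [← hn]; exact hlt) P1 B1 rfl h11
      (hB.mono le_sup_left)
    refine ⟨H, V, le_sup_left.trans hV1, hV2.trans ?_, hV3, ?_⟩
    · rw [Submodule.mul_le]
      intro a ha b hb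
      obtain ⟨haP, haB⟩ := (hP1 a).1 ha
      obtain ⟨b1, hb1, c, hc, rfl⟩ := Submodule.mem_sup.1 hb
      rw [mul_add]
      refine Submodule.add_mem _ (Submodule.mul_mem_mul haP hb1) ?_
      obtain ⟨a', ha', rfl⟩ := hc
      have h2 : a * mulE (F := F) e a' = a' * (e * a) := by
        change a * (e * a') = _
        ring
      rw [h2]
      exact Submodule.mul_mem_mul ha' haB
    · rw [← hdim]
      exact hV4

/-- **Kneser's theorem.** -/
theorem kneser (hA : Nice F A) {P B : Submodule F A} (hP : Full P) (hB : Full B) :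
    ∃ H : Subalgebra F A, (∀ h ∈ H, ∀ v ∈ P * B, h * v ∈ P * B) ∧
      finrank F P + finrank F B ≤ finrank F (P * B : Submodule F A) + finrank F H := by
  classical
  have key : ∀ a : A, a ∈ P → IsUnit a → ∃ (H : Subalgebra F A) (V : Submodule F A),
      (∀ b ∈ B, a * b ∈ V) ∧ V ≤ P * B ∧ (∀ h ∈ H, ∀ v ∈ V, h * v ∈ V) ∧
      finrank F P + finrank F B ≤ finrank F V + finrank F H := by
    intro a haP hau
    obtain ⟨u, rfl⟩ := hau
    have hui : IsUnit ((u⁻¹ : Aˣ) : A) := (u⁻¹).isUnit
    obtain ⟨H, V, h1, h2, h3, h4⟩ := transform hA _ (P.map (mulE ((u⁻¹ : Aˣ) : A))) B rfl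
      ⟨u, haP, by simp⟩ hB
    rw [finrank_map hui] at h4
    refine ⟨H, V.map (mulE (u : A)), fun b hb => ⟨b, h1 hb, rfl⟩, ?_, ?_, ?_⟩
    · rintro _ ⟨v, hv, rfl⟩
      have h5 := h2 hv
      refine Submodule.mul_induction_on h5 ?_ ?_
      · rintro _ ⟨p, hp, rfl⟩ b hb
        have h6 : mulE (F := F) (u : A) (mulE (F := F) ((u⁻¹ : Aˣ) : A) p * b) = p * b := by
          change (u : A) * ((((u⁻¹ : Aˣ) : A) * p) * b) = p * b
          rw [← mul_assoc, ← mul_assoc, Units.mul_inv, one_mul]
        rw [h6]
        exact Submodule.mul_mem_mul hp hb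
      · intro x y hx hy
        rw [map_add]
        exact Submodule.add_mem _ hx hy
    · rintro h hh _ ⟨v, hv, rfl⟩
      refine ⟨h * v, h3 h hh v hv, ?_⟩
      change (u : A) * (h * v) = h * (u * v)
      ring
    · rw [finrank_map u.isUnit]
      exact h4
  choose! H V hV1 hV2 hV3 hV4 using key
  have hfin : Finite (Subalgebra F A) := hA.fin
  let S : Subalgebra F A → Submodule F A := fun h =>
    Submodule.span F {a | a ∈ P ∧ IsUnit a ∧ H a = h}
  have hex : ∃ h, P ≤ S h := by
    by_contra hcon
    push Not at hcon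
    obtain ⟨b, hb, hbu, hbS⟩ := avoid hA hP S hcon
    exact hbS (H b) (Submodule.subset_span ⟨hb, hbu, rfl⟩)
  obtain ⟨h0, hh0⟩ := hex
  refine ⟨h0, ?_, ?_⟩
  · intro h hh v hv
    refine Submodule.mul_induction_on hv ?_ ?_
    · intro p hp b hb
      have h1 := hh0 hp
      clear hp
      induction h1 using Submodule.span_induction with
      | mem x hx =>
        obtain ⟨hx1, hx2, hx3⟩ := hx
        refine hV2 x hx1 hx2 (hV3 x hx1 hx2 h (by rw [hx3]; exact hh) _ (hV1 x hx1 hx2 b hb))
      | zero => simp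
      | add x y _ _ hx hy =>
        rw [add_mul, mul_add]
        exact Submodule.add_mem _ hx hy
      | smul c x _ hx =>
        rw [smul_mul_assoc, mul_smul_comm]
        exact Submodule.smul_mem _ c hx
    · intro x y hx hy
      rw [mul_add]
      exact Submodule.add_mem _ hx hy
  · have hne : ∃ a, a ∈ P ∧ IsUnit a ∧ H a = h0 := by
      by_contra hcon
      push Not at hcon
      obtain ⟨b, hb, hbu⟩ := hP
      have h1 : S h0 = ⊥ := by
        change Submodule.span F {a | a ∈ P ∧ IsUnit a ∧ H a = h0} = ⊥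
        rw [Submodule.span_eq_bot]
        rintro x ⟨hx1, hx2, hx3⟩
        exact absurd hx3 (hcon x hx1 hx2)
      have h2 : b = 0 := by
        have h3 := hh0 hb
        rw [h1] at h3
        exact (Submodule.mem_bot F).1 h3
      rw [h2, isUnit_zero_iff] at hbu
      have h4 : Subsingleton A := subsingleton_of_zero_eq_one hbu
      exact hcon b hb (by rw [h2, isUnit_zero_iff]; exact hbu) (Subsingleton.elim _ _)
    obtain ⟨a, ha1, ha2, ha3⟩ := hne
    refine (hV4 a ha1 ha2).trans ?_
    rw [ha3]
    exact Nat.add_le_add_right (Submodule.finrank_mono (hV2 a ha1 ha2)) _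

/-- Kneser's theorem for several factors, if only the scalars stabilise the product. -/
theorem kneser_prod [Nontrivial A] (hA : Nice F A) {ι : Type*} [DecidableEq ι]
    (P : ι → Submodule F A) (s : Finset ι) (hP : ∀ i ∈ s, Full (P i))
    (hst : ∀ z : A, (∀ v ∈ ∏ i ∈ s, P i, z * v ∈ ∏ i ∈ s, P i) → z ∈ (⊥ : Subalgebra F A)) :
    ∑ i ∈ s, finrank F (P i) + 1 ≤ finrank F (∏ i ∈ s, P i : Submodule F A) + s.card ∧
      Full (∏ i ∈ s, P i) := by
  induction s using Finset.induction_on with
  | empty =>
    refine ⟨?_, ⟨1, by rw [Finset.prod_empty]; exact Submodule.one_le.1 le_rfl, isUnit_one⟩⟩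
    rw [Finset.sum_empty, Finset.prod_empty, Finset.card_empty, zero_add, add_zero]
    have h1 : (1 : Submodule F A) ≠ ⊥ := by
      intro h
      have h2 : (1 : A) ∈ (1 : Submodule F A) := Submodule.one_le.1 le_rfl
      rw [h] at h2
      exact one_ne_zero ((Submodule.mem_bot F).1 h2)
    exact Nat.one_le_iff_ne_zero.2 fun h => h1 (Submodule.finrank_eq_zero.1 h)
  | insert i s hi ih =>
    have hstab : ∀ z : A, (∀ v ∈ ∏ j ∈ s, P j, z * v ∈ ∏ j ∈ s, P j) →
        z ∈ (⊥ : Subalgebra F A) := by
      intro z hz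
      apply hst z
      intro v hv
      rw [Finset.prod_insert hi] at hv ⊢
      refine Submodule.mul_induction_on hv ?_ ?_
      · intro a ha b hb
        have h1 : z * (a * b) = a * (z * b) := by ring
        rw [h1]
        exact Submodule.mul_mem_mul ha (hz b hb)
      · intro x y hx hy
        rw [mul_add]
        exact Submodule.add_mem _ hx hy
    obtain ⟨ih1, ih2⟩ := ih (fun j hj => hP j (Finset.mem_insert_of_mem hj)) hstab
    have hPi := hP i (Finset.mem_insert_self i s)
    rw [Finset.prod_insert hi] at hst ⊢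
    refine ⟨?_, hPi.mul ih2⟩
    obtain ⟨H, hH1, hH2⟩ := kneser hA hPi ih2
    have hHb : H ≤ ⊥ := fun z hz => hst z (hH1 z hz)
    have hHf : finrank F H ≤ 1 := by
      have h2 : finrank F H ≤ finrank F (⊥ : Subalgebra F A) :=
        Submodule.finrank_mono (s := Subalgebra.toSubmodule H)
          (t := Subalgebra.toSubmodule (⊥ : Subalgebra F A)) hHb
      rwa [Subalgebra.finrank_bot] at h2
    rw [Finset.sum_insert hi, Finset.card_insert_of_notMem hi]
    omega

end

end Pool.Agent.U598.IK
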