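import Pool.Agent.Y184.NT.Dom
import Pool.Agent.Y944.NT.NLG

/-!
Traces of canonical forms are regular at a place if the forms are regular at the places above it;
products of the pull-back of a canonical form and differentials of further functions.
-/

set_option autoImplicit false
set_option linter.overlappingInstances false
set_option linter.unusedSectionVars false

open FF Polynomial Pool.Agent.W602.GT Pool.Agent.W603.LV Pool.Agent.W619.PQ Pool.Agent.Y172
open Pool.Agent.Y692.NT Pool.Agent.Y184.NT

namespace Pool.Agent.U598.IK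

section

variable {K L : Type} [Field K] [Field L] [Algebra ℂ K] [Algebra ℂ L] [Algebra K L]
  [IsScalarTower ℂ K L] [FiniteDimensional K L] [Algebra.EssFiniteType ℂ K]
  [Algebra.EssFiniteType ℂ L] {n : ℕ}

/-- traces of canonical forms which are regular at the places over `P` are regular at `P` -/
theorem trForm_reg_at (hn : Algebra.trdeg ℂ K = n) {y : Fin n → K} {E : Fin n → Derivation ℂ K K}
    (hy : IsTranscendenceBasis ℂ y) (hE : ∀ i j, E i (y j) = if i = j then 1 else 0)
    {E' : Fin n → Derivation ℂ L L}
    (hE' : ∀ i f, E' i (algebraMap K L f) = algebraMap K L (E i f))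
    (W : (Fin n → Derivation ℂ L L) → L) (hW : IsPluri 1 W) (P : Place ℂ K)
    (hP : Divisorial n P) (hreg : ∀ (Q : Place ℂ L) (e : ℕ), Over Q P e → RegAt Q W) :
    RegAt P (trForm y (Algebra.trace K L (W E'))) := by
  classical
  have hnL : Algebra.trdeg ℂ L = n := trdeg_up (K := K) hn
  intro G hG
  obtain ⟨yP, EP, i0, hl⟩ := exists_loc hn hP
  choose EP' hEP' using fun i => exists_lift (L := L) hn (EP i)
  obtain ⟨B, hB⟩ : ∃ B : Matrix (Fin n) (Fin n) K, B = Matrix.of fun i j => E i (yP j) :=
    ⟨_, rfl⟩
  have hC : (Matrix.of fun i j => G i (yP j) : Matrix (Fin n) (Fin n) K).det =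
      (Matrix.of fun i j => G i (y j) : Matrix (Fin n) (Fin n) K).det * B.det := by
    rw [← Matrix.det_mul]
    congr 1
    ext i j
    rw [Matrix.of_apply, Matrix.mul_apply, hB]
    have h1 := Pool.Agent.W73.PG.PULL.expand y hy E hE (G i)
    conv_lhs => rw [← h1]
    rw [sum_smul_apply]
    rfl
  have hWB : W E' = algebraMap K L B.det * W EP' := by
    have h1 := pluri_coord (hl.bas.algebraMap_comp (A := L)) (lift_dual hl.dual hEP') hW E'
    rw [h1, pow_one]
    congr 1
    rw [hB, RingHom.map_det]
    congr 1
    ext i j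
    rw [Matrix.of_apply, RingHom.mapMatrix_apply, Matrix.map_apply, Matrix.of_apply]
    exact hE' i (yP j)
  have hval : (Matrix.of fun i j => G i (y j) : Matrix (Fin n) (Fin n) K).det *
      Algebra.trace K L (W E') =
      (Matrix.of fun i j => G i (yP j) : Matrix (Fin n) (Fin n) K).det *
        Algebra.trace K L (W EP') := by
    rw [hC, hWB, ← Algebra.smul_def, map_smul, smul_eq_mul]
    ring
  change P.Reg ((Matrix.of fun i j => G i (y j) : Matrix (Fin n) (Fin n) K).det *
      Algebra.trace K L (W E'))
  rw [hval]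
  refine P.reg_mul ?_ ?_
  · have h9 : Ge P 0 (Matrix.of fun i j => G i (yP j) : Matrix (Fin n) (Fin n) K).det :=
      ge_det P _ _ (fun _ _ => 0) (fun a b => hG a _ (hl.reg b)) fun σ => by simp
    exact h9
  · refine Pool.Agent.Y692.NT.trace_reg P (W EP') fun Q e hQ => ?_
    have hQd : Divisorial n Q := divisorial_up hQ hP
    have h1 := down_ge hnL hQ hQd hl hEP' hW (c := 0) (fun G' hG' => by
      rcases hreg Q e hQ G' hG' with h | h
      · exact Or.inl h
      · exact Or.inr (by exact_mod_cast h))
    rcases h1 with h1 | h1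
    · exact Or.inl h1
    · right
      have h2 : ((1 - e : ℤ) : ℝ) ≤ (Q.ord (W EP') : ℝ) := by
        push_cast
        push_cast at h1
        linarith
      exact_mod_cast h2

end

/-- a determinant with unit columns -/
theorem det_block {R : Type} [CommRing R] {n N : ℕ} (A : Matrix (Fin N) (Fin N) R)
    {k : Fin n → Fin N} (hk : Function.Injective k)
    (h : ∀ a b, (∀ i, k i ≠ b) → (∀ i, k i ≠ a) → A a b = if a = b then 1 else 0)
    (h' : ∀ i b, (∀ i, k i ≠ b) → A (k i) b = 0) :
    A.det = (A.submatrix k k).det := by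
  classical
  let e : Fin n ⊕ ((Set.range k)ᶜ : Set (Fin N)) ≃ Fin N :=
    (Equiv.sumCongr (Equiv.ofInjective k hk) (Equiv.refl _)).trans (Equiv.Set.sumCompl _)
  have he1 : ∀ i, e (Sum.inl i) = k i := fun i => rfl
  have he2 : ∀ b : ((Set.range k)ᶜ : Set (Fin N)), e (Sum.inr b) = b := fun b => rfl
  have hb : ∀ b : ((Set.range k)ᶜ : Set (Fin N)), ∀ i, k i ≠ b := fun b i hi => b.2 ⟨i, hi⟩
  have h1 : A.submatrix e e = Matrix.fromBlocks (A.submatrix k k) 0
      (Matrix.of fun (a : ((Set.range k)ᶜ : Set (Fin N))) i => A (a : Fin N) (k i)) 1 := by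
    ext a b
    rcases a with a | a <;> rcases b with b | b
    · rfl
    · change A (k a) b = 0
      exact h' a _ (hb b)
    · rfl
    · change A (a : Fin N) b = _
      rw [h _ _ (hb b) (hb a), Matrix.fromBlocks_apply₂₂, Matrix.one_apply]
      by_cases hab : a = b
      · rw [if_pos hab, if_pos (congrArg _ hab)]
      · rw [if_neg hab, if_neg fun hab' => hab (Subtype.ext hab')]
  rw [← Matrix.det_submatrix_equiv_self e A, h1, Matrix.det_fromBlocks_zero₁₂, Matrix.det_one,
    mul_one]

section

variable {K R : Type} [Field K] [Field R] [Algebra ℂ K] [Algebra ℂ R] [Algebra K R]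
  [IsScalarTower ℂ K R] [Algebra.EssFiniteType ℂ K] {n N : ℕ}

/-- **Pull-backs of regular canonical forms, multiplied by differentials of further functions.** -/
theorem mixed (hn : Algebra.trdeg ℂ K = n) (hN : Algebra.trdeg ℂ R = N) {z : Fin n → K}
    (hz : IsTranscendenceBasis ℂ z) {E : Fin n → Derivation ℂ K K}
    (hE : ∀ i j, E i (z j) = if i = j then 1 else 0) {ω : (Fin n → Derivation ℂ K K) → K}
    (hω : IsPluri 1 ω) (hreg : ∀ P : Place ℂ K, Divisorial n P → RegAt P ω)
    {k : Fin n → Fin N} (hk : Function.Injective k) {u : Fin N → R}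
    (hu : ∀ i, u (k i) = algebraMap K R (z i)) (Q : Place ℂ R) (hQ : Divisorial N Q)
    (huQ : ∀ b, (∀ i, k i ≠ b) → Q.Reg (u b)) : RegAt Q (trForm u (algebraMap K R (ω E))) := by
  classical
  intro D hD
  change Q.Reg ((Matrix.of fun i j => D i (u j) : Matrix (Fin N) (Fin N) R).det *
    algebraMap K R (ω E))
  by_cases htriv : ∃ f : K, Q.ord (algebraMap K R f) ≠ 0
  · obtain ⟨e, P, hP⟩ := exists_over Q htriv
    have hPd : Divisorial n P := Pool.Agent.Y71.NT.t_abh K R n N hn hN Q P e hP hQ
    obtain ⟨yP, EP, i0, hl⟩ := exists_loc hn hPd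
    -- the change of the coordinates
    obtain ⟨u', hu'⟩ : ∃ u' : Fin N → R, u' = fun b => if h : ∃ i, k i = b then
      algebraMap K R (yP h.choose) else u b := ⟨_, rfl⟩
    have hu'1 : ∀ i, u' (k i) = algebraMap K R (yP i) := by
      intro i
      have h1 : ∃ i', k i' = k i := ⟨i, rfl⟩
      rw [hu']
      simp only
      rw [dif_pos h1, hk h1.choose_spec]
    have hu'2 : ∀ b, (∀ i, k i ≠ b) → u' b = u b := by
      intro b hb
      rw [hu']
      simp only
      rw [dif_neg (by push Not; exact hb)]
    obtain ⟨B, hB⟩ : ∃ B : Matrix (Fin N) (Fin N) R, B = Matrix.of fun b' b =>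
      if h : ∃ i, k i = b then (if h' : ∃ i, k i = b' then
        algebraMap K R (EP h'.choose (z h.choose)) else 0) else (if b' = b then 1 else 0) :=
      ⟨_, rfl⟩
    have hB1 : ∀ i j, B (k i) (k j) = algebraMap K R (EP i (z j)) := by
      intro i j
      have h1 : ∃ i', k i' = k i := ⟨i, rfl⟩
      have h2 : ∃ i', k i' = k j := ⟨j, rfl⟩
      rw [hB, Matrix.of_apply, dif_pos h2, dif_pos h1, hk h1.choose_spec, hk h2.choose_spec]
    have hB2 : ∀ b' j, (∀ i, k i ≠ b') → B b' (k j) = 0 := by
      intro b' j hb'
      have h2 : ∃ i', k i' = k j := ⟨j, rfl⟩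
      rw [hB, Matrix.of_apply, dif_pos h2, dif_neg (by push Not; exact hb')]
    have hB3 : ∀ b' b, (∀ i, k i ≠ b) → B b' b = if b' = b then 1 else 0 := by
      intro b' b hb
      rw [hB, Matrix.of_apply, dif_neg (by push Not; exact hb)]
    have hmul : (Matrix.of fun i j => D i (u j) : Matrix (Fin N) (Fin N) R) =
        (Matrix.of fun i j => D i (u' j)) * B := by
      ext a b
      rw [Matrix.of_apply, Matrix.mul_apply]
      by_cases hb : ∃ j, k j = b
      · obtain ⟨j, rfl⟩ := hb
        have h1 : ∑ b', (Matrix.of fun i j => D i (u' j) : Matrix (Fin N) (Fin N) R) a b' *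
            B b' (k j) = ∑ i, D a (algebraMap K R (yP i)) * algebraMap K R (EP i (z j)) := by
          have h2 : ∑ b' ∈ Finset.univ.image k, (Matrix.of fun i j => D i (u' j) :
              Matrix (Fin N) (Fin N) R) a b' * B b' (k j) =
              ∑ i, D a (algebraMap K R (yP i)) * algebraMap K R (EP i (z j)) := by
            rw [Finset.sum_image fun x _ y _ h => hk h]
            refine Finset.sum_congr rfl fun i _ => ?_
            rw [Matrix.of_apply, hu'1, hB1]
          rw [← h2]
          symm
          refine Finset.sum_subset (Finset.subset_univ _) fun b' _ hb' => ?_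
          rw [hB2 b' j fun i hi => hb' (Finset.mem_image.2 ⟨i, Finset.mem_univ _, hi⟩), mul_zero]
        rw [h1, hu]
        exact Pool.Agent.W73.PG.PULL.chain yP hl.bas EP hl.dual (D a) (z j)
      · push Not at hb
        have h1 : ∀ b', (Matrix.of fun i j => D i (u' j) : Matrix (Fin N) (Fin N) R) a b' *
            B b' b = if b' = b then D a (u b) else 0 := by
          intro b'
          rw [hB3 b' b hb, Matrix.of_apply]
          by_cases h : b' = b
          · rw [if_pos h, if_pos h, mul_one, h, hu'2 b hb]
          · rw [if_neg h, if_neg h, mul_zero]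
        rw [Finset.sum_congr rfl fun b' _ => h1 b', Finset.sum_ite_eq', if_pos (Finset.mem_univ _)]
    have hdetB : B.det = algebraMap K R (Matrix.of fun i j => EP i (z j) :
        Matrix (Fin n) (Fin n) K).det := by
      rw [det_block B hk (fun a b hb _ => hB3 a b hb) (fun i b hb => by
        rw [hB3 _ b hb, if_neg (hb i)]), RingHom.map_det]
      congr 1
      ext i j
      exact hB1 i j
    have hωEP : ω EP = (Matrix.of fun i j => EP i (z j) : Matrix (Fin n) (Fin n) K).det * ω E := by
      have h1 := pluri_coord hz hE hω EP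
      rw [h1, pow_one]
    have hval : (Matrix.of fun i j => D i (u j) : Matrix (Fin N) (Fin N) R).det *
        algebraMap K R (ω E) = (Matrix.of fun i j => D i (u' j) : Matrix (Fin N) (Fin N) R).det *
        algebraMap K R (ω EP) := by
      rw [hmul, Matrix.det_mul, hdetB, hωEP, map_mul]
      ring
    rw [hval]
    refine Q.reg_mul ?_ ?_
    · have h9 : Ge Q 0 (Matrix.of fun i j => D i (u' j) : Matrix (Fin N) (Fin N) R).det :=
        Pool.Agent.W619.PQ.ge_det Q _ fun a b => hD a _ (by
          by_cases hb : ∃ j, k j = b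
          · obtain ⟨j, rfl⟩ := hb
            rw [hu'1]
            exact hP.reg.2 (hl.reg j)
          · push Not at hb
            rw [hu'2 b hb]
            exact huQ b hb)
      exact h9
    · exact hP.reg.2 (hreg P hPd EP hl.pres)
  · push Not at htriv
    have h0 : ∀ f : K, Q.Reg (algebraMap K R f) := fun f => Or.inr (htriv f).ge
    refine Q.reg_mul ?_ (h0 _)
    have h9 : Ge Q 0 (Matrix.of fun i j => D i (u j) : Matrix (Fin N) (Fin N) R).det :=
      Pool.Agent.W619.PQ.ge_det Q _ fun a b => hD a _ (by
        by_cases hb : ∃ j, k j = b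
        · obtain ⟨j, rfl⟩ := hb
          rw [hu]
          exact h0 _
        · push Not at hb
          exact huQ b hb)
    exact h9

end

end Pool.Agent.U598.IK
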