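import Pool.Agent.U598.IK.Mix
import Pool.Agent.Y944.NT.VertG

/-!
A variety with function field `R`, of dimension `N + 1`, fibred in curves over a variety with
function field `M`, and mapped to a variety with function field `K` with regular canonical forms
`Φ ω`: the traces to `M(X)` of the products of `Φ` with a nonzero function are zero if the curves
are not contracted.
-/

set_option autoImplicit false
set_option linter.overlappingInstances false
set_option linter.unusedSectionVars false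

open FF Polynomial Pool.Agent.W602.GT Pool.Agent.W603.LV Pool.Agent.W619.PQ Pool.Agent.Y172
open Pool.Agent.Y692.NT Pool.Agent.Y184.NT Pool.Agent.Y944.NT

namespace Pool.Agent.U598.IK

theorem vert {K M R : Type} [Field K] [Field M] [Field R] [Algebra ℂ K] [Algebra ℂ M]
    [Algebra ℂ R] [Algebra.EssFiniteType ℂ K] [Algebra.EssFiniteType ℂ M]
    [Algebra (RatFunc M) R] [IsScalarTower ℂ (RatFunc M) R] [FiniteDimensional (RatFunc M) R]
    [Algebra K R] [IsScalarTower ℂ K R] {n N : ℕ}
    (hn : Algebra.trdeg ℂ K = n) {z : Fin N → M} (hz : IsTranscendenceBasis ℂ z)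
    {ω : (Fin n → Derivation ℂ K K) → K} (hω : IsPluri 1 ω) (hω0 : ∃ D, ω D ≠ 0)
    {ι : Type} (Φ : ι → K)
    (hreg : ∀ i, ∀ P : Place ℂ K, Divisorial n P → RegAt P (fun D => Φ i * ω D))
    (hgen : ∀ D : Derivation ℂ R R,
      (∀ l : M, D (algebraMap (RatFunc M) R (algebraMap M (RatFunc M) l)) = 0) →
      (∀ f : K, D (algebraMap K R f) = 0) → D = 0) :
    ∃ c : R, c ≠ 0 ∧ ∀ i, Algebra.trace (RatFunc M) R (algebraMap K R (Φ i) * c) = 0 := by
  classical
  have hW0 : StW0 := Pool.Agent.Y929.NT.t_W0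
  -- the vector fields
  choose Ez hEz using fun i : Fin N => exists_der z hz fun j => if i = j then 1 else 0
  obtain ⟨ht, δ, hδ0X, hδ0M, hδX, hδM⟩ := Pool.Agent.Y888.NT.stDer M N z hz Ez hEz
  set t : Fin (N + 1) → RatFunc M :=
    Fin.cons RatFunc.X fun i => algebraMap M (RatFunc M) (z i) with htdef
  have hdual : ∀ i j, δ i (t j) = if i = j then 1 else 0 := by
    intro i j
    refine Fin.cases ?_ (fun i => ?_) i
    · refine Fin.cases ?_ (fun j => ?_) j
      · simp [htdef, hδ0X]
      · simp only [htdef, Fin.cons_succ, hδ0M]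
        rw [if_neg (Fin.succ_ne_zero j).symm]
    · refine Fin.cases ?_ (fun j => ?_) j
      · simp only [htdef, Fin.cons_zero, hδX]
        rw [if_neg (Fin.succ_ne_zero i)]
      · simp only [htdef, Fin.cons_succ, hδM, hEz]
        by_cases h : i = j
        · subst h; simp
        · rw [if_neg h, if_neg (fun h' => h (Fin.succ_injective _ h')), map_zero]
  have hδpoly : ∀ k (A : M[X]), ∃ A' : M[X], δ k (io A) = io A' := by
    intro k A
    refine Fin.cases ?_ (fun k => ?_) k
    · exact der_poly (fun l => ⟨0, by rw [hδ0M, io, map_zero]⟩) ⟨1, by rw [hδ0X, io, map_one]⟩ A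
    · exact der_poly (fun l => ⟨C (Ez k l), by rw [hδM, Pool.Agent.Y944.NT.io_C]⟩) ⟨0, by rw [hδX, io, map_zero]⟩ A
  have hS : Algebra.trdeg ℂ (RatFunc M) = ((N + 1 : ℕ) : Cardinal) := trdeg_rat ht
  have hessMX : Algebra.EssFiniteType M (RatFunc M) := by
    have h1 : Algebra.EssFiniteType M[X] (RatFunc M) :=
      Algebra.EssFiniteType.of_isLocalization (RatFunc M) (nonZeroDivisors M[X])
    exact Algebra.EssFiniteType.comp M M[X] (RatFunc M)
  have hessS : Algebra.EssFiniteType ℂ (RatFunc M) := Algebra.EssFiniteType.comp ℂ M (RatFunc M)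
  have hessR : Algebra.EssFiniteType ℂ R := Algebra.EssFiniteType.comp ℂ (RatFunc M) R
  have hR : Algebra.trdeg ℂ R = ((N + 1 : ℕ) : Cardinal) := trdeg_up (K := RatFunc M) hS
  choose δ' hδ' using fun i => exists_lift (k := ℂ) (K := RatFunc M) (L := R) hS (δ i)
  have ht' : IsTranscendenceBasis ℂ (fun j => algebraMap (RatFunc M) R (t j)) :=
    ht.algebraMap_comp
  have hdual' := lift_dual hdual hδ'
  obtain ⟨y, E, hy, hE⟩ := Pool.Agent.Y172.exists_crd (k := ℂ) (K := K) hn
  -- the rows
  obtain ⟨m, hm⟩ : ∃ m : Fin (N + 1) → Fin n → R, m = fun k j => δ' k (algebraMap K R (y j)) :=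
    ⟨_, rfl⟩
  have hφy : AlgebraicIndependent ℂ (fun j => algebraMap K R (y j)) :=
    hy.1.map' (f := IsScalarTower.toAlgHom ℂ K R) (algebraMap K R).injective
  have hcol : ∀ c : Fin n → R, (∀ k, ∑ j, c j * m k j = 0) → c = 0 := by
    intro c hc
    funext i
    obtain ⟨D, hD⟩ := exists_der_indep hφy i
    have h2 : ∀ x, D x = ∑ k, D (algebraMap (RatFunc M) R (t k)) * δ' k x := by
      intro x
      have h1 := der_expand ht' hdual' D
      conv_lhs => rw [h1]
      rw [sum_smul_apply]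
    have h4 : ∑ j, c j * D (algebraMap K R (y j)) = 0 := by
      simp only [h2 (algebraMap K R (y _)), Finset.mul_sum]
      rw [Finset.sum_comm]
      refine Finset.sum_eq_zero fun k _ => ?_
      have h5 := hc k
      calc ∑ j, c j * (D (algebraMap (RatFunc M) R (t k)) * δ' k (algebraMap K R (y j))) =
          D (algebraMap (RatFunc M) R (t k)) * ∑ j, c j * m k j := by
            rw [Finset.mul_sum]
            exact Finset.sum_congr rfl fun j _ => by rw [hm]; ring
        _ = 0 := by rw [h5, mul_zero]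
    simp only [hD, mul_ite, mul_one, mul_zero, Finset.sum_ite_eq, Finset.mem_univ, if_true] at h4
    exact h4
  have h0 : m 0 ≠ 0 := by
    intro h0
    have h1 : (δ' 0).compAlgebraMap K = 0 := Pool.Agent.Y888.NT.der_ext' y hy fun j => by
      change δ' 0 (algebraMap K R (y j)) = 0
      have h2 := congrFun h0 j
      rw [hm] at h2
      exact h2
    have h2 : δ' 0 = 0 := hgen (δ' 0) (fun l => by rw [hδ', hδ0M, map_zero])
      fun f => DFunLike.congr_fun h1 f
    have h3 := hδ' 0 RatFunc.X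
    rw [h2, hδ0X, map_one] at h3
    exact zero_ne_one h3
  obtain ⟨k, i0, hk0, hk1, hdet⟩ := rows_ext m hcol h0
  have hkinj : Function.Injective k := by
    intro i j hij
    by_contra hne
    exact hdet (Matrix.det_zero_of_row_eq hne (by
      funext l
      rw [Matrix.of_apply, Matrix.of_apply, hij]))
  have hωE : ω E ≠ 0 := by
    intro h0
    obtain ⟨D, hD⟩ := hω0
    apply hD
    rw [pluri_coord hy hE hω D, h0, mul_zero]
  refine ⟨(Matrix.of fun i j => m (k i) j).det * algebraMap K R (ω E),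
    mul_ne_zero hdet (by simpa using hωE), fun i => ?_⟩
  -- the mixed form
  obtain ⟨u, hu⟩ : ∃ u : Fin (N + 1) → R, u = fun b => if h : ∃ i, k i = b then
    algebraMap K R (y h.choose) else algebraMap (RatFunc M) R (t b) := ⟨_, rfl⟩
  have hu1 : ∀ i, u (k i) = algebraMap K R (y i) := by
    intro i
    have h1 : ∃ i', k i' = k i := ⟨i, rfl⟩
    rw [hu]
    simp only
    rw [dif_pos h1, hkinj h1.choose_spec]
  have hu2 : ∀ b, (∀ i, k i ≠ b) → u b = algebraMap (RatFunc M) R (t b) := by
    intro b hb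
    rw [hu]
    simp only
    rw [dif_neg (by push Not; exact hb)]
  obtain ⟨W, hW⟩ : ∃ W : (Fin (N + 1) → Derivation ℂ R R) → R,
    W = trForm u (algebraMap K R (Φ i * ω E)) := ⟨_, rfl⟩
  have hWp : IsPluri 1 W := by
    rw [hW]
    exact trForm_pluri _ _
  have hWδ : W δ' = algebraMap K R (Φ i) *
      ((Matrix.of fun i j => m (k i) j).det * algebraMap K R (ω E)) := by
    rw [hW, trForm, det_block _ hkinj (fun a b hb _ => by
      rw [Matrix.of_apply, hu2 b hb, hdual']) (fun i b hb => by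
      rw [Matrix.of_apply, hu2 b hb, hdual', if_neg (hb i)])]
    have h1 : (Matrix.of fun i j => δ' i (u j)).submatrix k k = Matrix.of fun i j => m (k i) j := by
      ext a b
      rw [Matrix.submatrix_apply, Matrix.of_apply, hu1, Matrix.of_apply, hm]
    rw [h1, map_mul]
    ring
  have hp : IsPluri 1 (fun D => Φ i * ω D) := by
    intro A D
    change Φ i * ω (fun i => ∑ j, A i j • D j) = _
    rw [hω A D]
    ring
  have hreg' : ∀ (P : Place ℂ (RatFunc M)), Divisorial (N + 1) P →
      (∀ j : Fin N, P.Reg (algebraMap M (RatFunc M) (z j))) →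
      RegAt P (trForm t (Algebra.trace (RatFunc M) R (W δ'))) := by
    intro P hP hPz
    refine trForm_reg_at hS ht hdual hδ' W hWp P hP fun Q e hQ => ?_
    rw [hW]
    refine mixed hn hR hy hE hp (hreg i) hkinj hu1 Q (divisorial_up hQ hP) fun b hb => ?_
    rw [hu2 b hb]
    refine hQ.reg.2 ?_
    have hb0 : b ≠ 0 := fun h => hb i0 (hk0.trans h.symm)
    obtain ⟨b', rfl⟩ := Fin.exists_succ_eq.2 hb0
    rw [htdef, Fin.cons_succ]
    exact hPz b'
  rw [← hWδ]
  -- the trace is a polynomial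
  obtain ⟨P, hP⟩ := poly_of_reg hW0 (Algebra.trace (RatFunc M) R (W δ')) fun g w0 hg hw => by
    have h1 := hreg' w0 (div_w0 hz hg hw) (fun j => by
      rw [← Pool.Agent.Y944.NT.io_C]
      exact hw.reg _) δ fun i => hw.derReg (hδpoly i)
    have h2 : (Matrix.of fun i j => δ i (t j) : Matrix (Fin (N + 1)) (Fin (N + 1))
        (RatFunc M)) = 1 := by
      ext a b
      rw [Matrix.of_apply, hdual, Matrix.one_apply]
    rw [trForm, h2, Matrix.det_one, one_mul] at h1
    exact h1
  rw [hP]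
  by_contra hne
  have hP0 : P ≠ 0 := by
    rintro rfl
    exact hne (by rw [io, map_zero])
  -- the place at infinity
  obtain ⟨s', hs1, hs2⟩ := exists_inv M
  let s : RatFunc M ≃ₐ[ℂ] RatFunc M := AlgEquiv.ofAlgHom (s'.restrictScalars ℂ)
    (s'.restrictScalars ℂ) (AlgHom.ext hs2) (AlgHom.ext hs2)
  have hss : ∀ x, s (s x) = x := hs2
  have hsX : s RatFunc.X = (RatFunc.X : RatFunc M)⁻¹ := by
    have := hs1 X
    rw [RatFunc.algebraMap_X, aeval_X] at this
    exact this
  have hsM : ∀ l : M, s (algebraMap M (RatFunc M) l) = algebraMap M (RatFunc M) l := fun l =>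
    s'.commutes l
  have hX0 : (RatFunc.X : RatFunc M) ≠ 0 := RatFunc.X_ne_zero
  obtain ⟨w0, hw⟩ := exists_w0 hW0 (irreducible_X : Irreducible (X : M[X]))
  have hdiv : Divisorial (N + 1) (w0.comp s) := by
    refine ⟨fun i => algebraMap M (RatFunc M) (z i), fun F hF => ?_⟩
    have h1 : MvPolynomial.aeval (fun i => algebraMap M (RatFunc M) (z i)) F =
        algebraMap M (RatFunc M) (MvPolynomial.aeval z F) :=
      MvPolynomial.aeval_algebraMap_apply (RatFunc M) z F
    have h2 : MvPolynomial.aeval z F ≠ 0 := fun h0 =>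
      hF ((injective_iff_map_eq_zero _).1 hz.1 F h0)
    change MvPolynomial.aeval (fun i => algebraMap M (RatFunc M) (z i)) F ≠ 0 ∧
      w0.ord (s (MvPolynomial.aeval (fun i => algebraMap M (RatFunc M) (z i)) F)) = 0
    rw [h1, hsM, ← Pool.Agent.Y944.NT.io_C]
    have h3 : (C (MvPolynomial.aeval z F) : M[X]) ≠ 0 := C_ne_zero.2 h2
    refine ⟨io_ne h3, hw.unit _ h3 fun hd => ?_⟩
    exact irreducible_X.not_isUnit (isUnit_of_dvd_unit hd (isUnit_C.2 (isUnit_iff_ne_zero.2 h2)))
  have hcreg : ∀ x, (w0.comp s).Reg x ↔ w0.Reg (s x) := by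
    intro x
    unfold Place.Reg
    rw [Place.comp_ord]
    simp
  obtain ⟨D, hDs⟩ : ∃ D : Fin (N + 1) → Derivation ℂ (RatFunc M) (RatFunc M),
    ∀ k x, D k x = s (δ k (s x)) :=
    ⟨fun k => cj (s'.restrictScalars ℂ) hs2 (δ k), fun _ _ => rfl⟩
  have h1 := hreg' (w0.comp s) hdiv (fun j => by
    rw [hcreg, hsM, ← Pool.Agent.Y944.NT.io_C]
    exact hw.reg _) D (fun k x hx => by
      rw [hcreg] at hx ⊢
      rw [hDs, hss]
      exact hw.derReg (hδpoly k) _ hx)
  have h2 : (Matrix.of fun i j => D i (t j) :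
      Matrix (Fin (N + 1)) (Fin (N + 1)) (RatFunc M)) =
      Matrix.diagonal fun i => if i = 0 then -(RatFunc.X ^ 2) else 1 := by
    ext a b
    rw [Matrix.of_apply, hDs]
    refine Fin.cases ?_ (fun b => ?_) b
    · rw [htdef, Fin.cons_zero, hsX, Derivation.leibniz_inv]
      refine Fin.cases ?_ (fun a => ?_) a
      · rw [hδ0X, Matrix.diagonal_apply_eq, if_pos rfl]
        simp [hsX]
      · rw [hδX, Matrix.diagonal_apply_ne _ (Fin.succ_ne_zero a)]
        simp
    · rw [htdef, Fin.cons_succ, hsM]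
      refine Fin.cases ?_ (fun a => ?_) a
      · rw [hδ0M, map_zero, Matrix.diagonal_apply_ne _ (Fin.succ_ne_zero b).symm]
      · rw [hδM, hsM, hEz, Matrix.diagonal_apply]
        by_cases h : a = b
        · subst h
          rw [if_pos rfl, if_pos rfl, if_neg (Fin.succ_ne_zero a), map_one]
        · rw [if_neg h, if_neg (fun h' => h (Fin.succ_injective _ h')), map_zero]
  have h3 : (Matrix.diagonal fun i : Fin (N + 1) => if i = 0 then -(RatFunc.X ^ 2 : RatFunc M)
      else 1).det = -(RatFunc.X ^ 2) := by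
    rw [Matrix.det_diagonal, Fin.prod_univ_succ, if_pos rfl]
    simp [Fin.succ_ne_zero]
  rw [trForm, h2, h3, hP, hcreg, map_mul, map_neg, map_pow, hsX] at h1
  have hsP : s (io P) = io P.reverse * (RatFunc.X⁻¹) ^ P.natDegree := by
    have h1 : s (io P) = aeval (RatFunc.X : RatFunc M)⁻¹ P := hs1 P
    let _ : Invertible (RatFunc.X : RatFunc M)⁻¹ :=
      ⟨RatFunc.X, mul_inv_cancel₀ hX0, inv_mul_cancel₀ hX0⟩
    have h2 := eval₂_reverse_mul_pow (algebraMap M (RatFunc M)) (RatFunc.X : RatFunc M)⁻¹ P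
    have h3 : ⅟((RatFunc.X : RatFunc M)⁻¹) = RatFunc.X := rfl
    rw [h3] at h2
    rw [h1, aeval_def, ← h2]
    congr 1
    have h4 : (aeval (RatFunc.X : RatFunc M) : M[X] →ₐ[M] RatFunc M) =
        Algebra.algHom M M[X] (RatFunc M) := by
      ext
      simp [Algebra.algHom]
    exact DFunLike.congr_fun h4 P.reverse
  have hr0 : P.reverse ≠ 0 := by simpa using hP0
  have hXi : io (X : M[X]) = RatFunc.X := RatFunc.algebraMap_X
  have hordX : w0.ord (RatFunc.X : RatFunc M) = 1 := by
    rw [← hXi]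
    exact hw.one
  have hordr : w0.ord (io P.reverse) = 0 := by
    refine hw.unit _ hr0 fun hd => ?_
    rw [X_dvd_iff, coeff_zero_reverse] at hd
    exact hP0 (leadingCoeff_eq_zero.1 hd)
  have hne1 : s (io P) ≠ 0 := by
    rw [map_ne_zero_iff _ s.injective]
    exact io_ne hP0
  have hne2 : -(RatFunc.X : RatFunc M)⁻¹ ^ 2 ≠ 0 :=
    neg_ne_zero.2 (pow_ne_zero _ (inv_ne_zero hX0))
  have h4 := (w0.reg_iff (mul_ne_zero hne2 hne1)).1 h1
  have h5 : w0.ord (s (io P)) = -(P.natDegree : ℤ) := by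
    rw [hsP, w0.ord_mul (io_ne hr0) (pow_ne_zero _ (inv_ne_zero hX0)), hordr, w0.ord_pow,
      w0.ord_inv, hordX]
    ring
  have h6 : w0.ord (-(RatFunc.X : RatFunc M)⁻¹ ^ 2) = -2 := by
    rw [w0.ord_neg, w0.ord_pow, w0.ord_inv, hordX]
    ring
  rw [w0.ord_mul hne2 hne1, h5, h6] at h4
  omega

end Pool.Agent.U598.IK
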