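import Pool.Agent.U598.IK.Field
import Pool.Agent.U598.IK.Vert

/-!
Correspondences with varieties of geometric genus zero: null traces.
-/

set_option autoImplicit false
set_option linter.overlappingInstances false
set_option linter.unusedSectionVars false

open FF Polynomial Pool.Agent.W602.GT Pool.Agent.W603.LV Pool.Agent.Y184.NT

namespace Pool.Agent.U598.IK

variable {M K L : Type} [Field M] [Field K] [Field L] [Algebra ℂ M] [Algebra ℂ K] [Algebra ℂ L]
  [Algebra M K] [Algebra L K] [IsScalarTower ℂ M K] [IsScalarTower ℂ L K]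
  [FiniteDimensional M K] [FiniteDimensional L K] {n : ℕ}

/-- The traces of the canonical forms `Φ ω` are zero if the geometric genus is zero. -/
theorem null [Algebra.EssFiniteType ℂ M] (hM : Algebra.trdeg ℂ M = n)
    {ω : (Fin n → Derivation ℂ M M) → M} (hω : IsPluri 1 ω) (hω0 : ∃ D, ω D ≠ 0)
    {ι : Type} (Φ : ι → M)
    (hreg : ∀ i, ∀ P : Place ℂ M, Divisorial n P → RegAt P (fun D => Φ i * ω D))
    (hpg : ∀ θ : (Fin n → Derivation ℂ L L) → L, IsPluri 1 θ →
      (∀ P : Place ℂ L, Divisorial n P → RegAt P θ) → ∀ D, θ D = 0) :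
    ∃ h : K, h ≠ 0 ∧ ∀ i, Algebra.trace L K (algebraMap M K (Φ i) * h) = 0 := by
  classical
  have hessMK : Algebra.EssFiniteType M K := inferInstance
  have hessK : Algebra.EssFiniteType ℂ K := Algebra.EssFiniteType.comp ℂ M K
  have hessL : Algebra.EssFiniteType ℂ L := Pool.Agent.TH466.QG.ess_below (K := K)
  have hcL : CharZero L := charZero_of_injective_algebraMap (algebraMap ℂ L).injective
  have hK : Algebra.trdeg ℂ K = n := Pool.Agent.Y172.trdeg_up (K := M) hM
  have hL : Algebra.trdeg ℂ L = n := trdeg_below (K := K) hK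
  obtain ⟨z, EM, hz, hEM⟩ := Pool.Agent.Y172.exists_crd (k := ℂ) (K := M) hM
  choose EK hEK using fun i => Pool.Agent.Y172.exists_lift (k := ℂ) (K := M) (L := K) hM (EM i)
  have hzK : IsTranscendenceBasis ℂ (fun j => algebraMap M K (z j)) := hz.algebraMap_comp
  have hEKd := Pool.Agent.Y172.lift_dual hEM hEK
  obtain ⟨y, E, hy, hE⟩ := Pool.Agent.Y172.exists_crd (k := ℂ) (K := L) hL
  choose E' hE' using fun i => Pool.Agent.Y172.exists_lift (k := ℂ) (K := L) (L := K) hL (E i)
  have hEind : LinearIndependent K E' := lift_ind hE hE'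
  -- the forms
  have hωE : ω EM ≠ 0 := by
    intro h0
    obtain ⟨D, hD⟩ := hω0
    apply hD
    rw [Pool.Agent.Y172.pluri_coord hz hEM hω D, h0, mul_zero]
  obtain ⟨W, hWdef⟩ : ∃ W : ι → (Fin n → Derivation ℂ K K) → K,
    W = fun i => pull z (Φ i * ω EM) := ⟨_, rfl⟩
  have hWp : ∀ i, IsPluri 1 (W i) := fun i => by
    rw [hWdef]
    exact pull_pluri _ _
  have hWr : ∀ i (Q : Place ℂ K), Divisorial n Q → RegAt Q (W i) := by
    intro i Q hQ D hD
    rw [hWdef]
    have hp : IsPluri 1 (fun D => Φ i * ω D) := by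
      intro A D
      change Φ i * ω (fun i => ∑ j, A i j • D j) = _
      rw [hω A D]
      ring
    exact Pool.Agent.Y297.NT.t_Pull Pool.Agent.Y71.NT.t_abh M K n n hM hK z hz EM hEM
      (fun D => Φ i * ω D) hp (hreg i) Q hQ D hD
  obtain ⟨h, hhdef⟩ : ∃ h : K, h = pull z (ω EM) E' := ⟨_, rfl⟩
  have hh : h ≠ 0 := by
    rw [hhdef]
    exact mul_ne_zero (minor_ne hzK hEKd hEind) (by simpa using hωE)
  have hWE : ∀ i, W i E' = algebraMap M K (Φ i) * h := by
    intro i
    rw [hWdef, hhdef]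
    simp only [pull]
    rw [map_mul]
    ring
  refine ⟨h, hh, fun i => ?_⟩
  have hθE : ∀ t, trForm y t E = t := by
    intro t
    have h1 : (Matrix.of fun i j => E i (y j) : Matrix (Fin n) (Fin n) L) = 1 := by
      ext i j
      rw [Matrix.of_apply, hE, Matrix.one_apply]
    rw [trForm, h1, Matrix.det_one, one_mul]
  rw [← hWE, ← hθE (Algebra.trace L K (W i E'))]
  exact hpg _ (trForm_pluri y _) (fun P hP => trForm_reg hL hy hE hE' (W i) (hWp i) (hWr i) P hP) E

end Pool.Agent.U598.IK
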