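import Pool.Agent.U598.IK.Up
import Pool.Agent.U598.IK.Vert

/-!
Families of subvarieties of positive dimension of linear spaces, which cover a variety with
positive canonical bundle and are components of the zero sets of polynomials of bounded degree.
-/

set_option autoImplicit false
set_option linter.overlappingInstances false
set_option linter.unusedSectionVars false

open FF MvPolynomial Pool.Agent.W602.GT Pool.Agent.Y184.NT

namespace Pool.Agent.U598.IK

theorem exists_prod {A : Type*} [CommMonoid A] {N s : ℕ} (x : Fin N → A) {j0 : Fin N}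
    (hj0 : x j0 = 1) (a : Fin s → A) (ha : ∀ i, ∃ j, x j = a i) (m : ℕ) :
    ∀ α : Fin s →₀ ℕ, α.degree ≤ m → ∃ f : Fin m → Fin N, ∏ k, x (f k) = ∏ i, a i ^ α i := by
  classical
  induction m with
  | zero =>
    intro α hα
    have h0 : α = 0 := by
      rw [← Finsupp.degree_eq_zero_iff]
      omega
    exact ⟨Fin.elim0, by simp [h0]⟩
  | succ m ih =>
    intro α hα
    by_cases h : α.degree ≤ m
    · obtain ⟨f, hf⟩ := ih α h
      exact ⟨Fin.cons j0 f, by rw [Fin.prod_univ_succ]; simp [hj0, hf]⟩
    · obtain ⟨i, hi⟩ : ∃ i, α i ≠ 0 := by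
        by_contra hcon
        push Not at hcon
        have h1 : α = 0 := Finsupp.ext hcon
        rw [h1] at h
        simp at h
      obtain ⟨α', rfl⟩ : ∃ α', α = α' + Finsupp.single i 1 :=
        ⟨α - Finsupp.single i 1, (tsub_add_cancel_of_le (by
          rw [Finsupp.single_le_iff]
          omega)).symm⟩
      rw [map_add, Finsupp.degree_single] at hα
      obtain ⟨f, hf⟩ := ih α' (by omega)
      obtain ⟨j, hj⟩ := ha i
      refine ⟨Fin.cons j f, ?_⟩
      rw [Fin.prod_univ_succ]
      simp only [Fin.cons_zero, Fin.cons_succ, hf, hj]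
      have h2 : ∀ l, a l ^ ((α' + Finsupp.single i 1 : Fin s →₀ ℕ) l) =
          a l ^ α' l * (if l = i then a i else 1) := by
        intro l
        rw [Finsupp.add_apply, pow_add, Finsupp.single_apply]
        by_cases hl : l = i
        · subst hl
          simp
        · rw [if_neg (fun h' => hl h'.symm), if_neg hl, pow_zero]
      simp only [h2]
      rw [Finset.prod_mul_distrib, Finset.prod_ite_eq', if_pos (Finset.mem_univ _), mul_comm]

/-- **Subvarieties of positive dimension.** -/
theorem posdim {V E R : Type} [Field V] [Field E] [Field R] [Algebra ℂ V] [Algebra ℂ E]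
    [Algebra ℂ R] [Algebra V R] [Algebra E R] [IsScalarTower ℂ V R] [IsScalarTower ℂ E R]
    [Algebra.EssFiniteType ℂ V] [Algebra.EssFiniteType ℂ E] {n a D e d m N : ℕ}
    (hn : Algebra.trdeg ℂ V = n) {ω : (Fin n → Derivation ℂ V V) → V} (hω : IsPluri 1 ω)
    (hω0 : ∃ D, ω D ≠ 0) {x : Fin N → V} {j0 : Fin N} (hj0 : x j0 = 1)
    (hreg : ∀ (f : Fin m → Fin N) (P : Place ℂ V), Divisorial n P →
      RegAt P (fun D => (∏ k, x (f k)) * ω D))
    (η : Fin (a + D) → R) (hη : ∀ i, ∃ j, algebraMap V R (x j) = η i)
    (hgen : IntermediateField.adjoin E (Set.range η) = ⊤) (halg : ¬ Algebra.IsAlgebraic E R)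
    (hmin : RingHom.ker (aeval η : MvPolynomial (Fin (a + D)) E →ₐ[E] R) ∈
      (Ideal.span (low E d η)).minimalPrimes)
    (hD : ∀ 𝔭 : Ideal (MvPolynomial (Fin (a + D)) E), 𝔭.IsPrime →
      Ideal.span (low E e η) ≤ 𝔭 →
      𝔭 ≤ RingHom.ker (aeval η : MvPolynomial (Fin (a + D)) E →ₐ[E] R) → ¬ Ind 𝔭 (D + 1)) :
    m < a * e + D * d := by
  classical
  have hcR : CharZero R := charZero_of_injective_algebraMap (algebraMap ℂ R).injective
  -- a maximal set of coordinates
  obtain ⟨T0, hT0⟩ : ∃ T0 : Set (Fin (a + D)), Maximal (fun T : Set (Fin (a + D)) =>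
      ¬ Algebra.IsAlgebraic (IntermediateField.adjoin E (η '' T)) R) T0 := by
    refine Set.Finite.exists_maximal (s := {T : Set (Fin (a + D)) |
      ¬ Algebra.IsAlgebraic (IntermediateField.adjoin E (η '' T)) R}) (Set.toFinite _) ⟨∅, ?_⟩
    intro h
    apply halg
    rw [Set.image_empty, IntermediateField.adjoin_empty] at h
    exact Algebra.IsAlgebraic.trans E (⊥ : IntermediateField E R) R
  obtain ⟨M', hM'⟩ : ∃ M' : IntermediateField E R, M' = IntermediateField.adjoin E (η '' T0) :=
    ⟨_, rfl⟩
  have hM'alg : ¬ Algebra.IsAlgebraic M' R := by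
    rw [hM']
    exact hT0.1
  obtain ⟨t0, ht0⟩ : ∃ t0, Transcendental M' (η t0) := by
    by_contra hcon
    apply hM'alg
    have h1 : IntermediateField.adjoin E (Set.range η) ≤
        (algebraicClosure M' R).restrictScalars E := by
      rw [IntermediateField.adjoin_le_iff]
      rintro _ ⟨i, rfl⟩
      by_contra h2
      refine hcon ⟨i, fun h3 => h2 ?_⟩
      exact (mem_algebraicClosure_iff (F := M') (E := R)).2 h3
    refine ⟨fun r => ?_⟩
    have h2 : r ∈ IntermediateField.adjoin E (Set.range η) := by
      rw [hgen]
      trivial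
    exact (mem_algebraicClosure_iff (F := M') (E := R)).1 (h1 h2)
  have ht0T : t0 ∉ T0 := by
    intro h
    have h1 : η t0 ∈ M' := by
      rw [hM']
      exact IntermediateField.subset_adjoin _ _ ⟨t0, h, rfl⟩
    exact ht0 (isAlgebraic_algebraMap (⟨η t0, h1⟩ : M'))
  have halg1 : Algebra.IsAlgebraic (IntermediateField.adjoin E (η '' (insert t0 T0))) R := by
    by_contra h
    have h1 := hT0.2 (y := insert t0 T0) h (Set.subset_insert _ _)
    exact ht0T (h1 (Set.mem_insert _ _))
  -- the rational functions
  have hinj : Function.Injective (Polynomial.aeval (η t0) : Polynomial M' →ₐ[M'] R) :=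
    transcendental_iff_injective.1 ht0
  let j : RatFunc M' →ₐ[M'] R := RatFunc.liftAlgHom (Polynomial.aeval (η t0))
    (nonZeroDivisors_le_comap_nonZeroDivisors_of_injective _ hinj)
  have hjp : ∀ A : Polynomial M', j (algebraMap (Polynomial M') (RatFunc M') A) =
      Polynomial.aeval (η t0) A := by
    intro A
    have := RatFunc.liftAlgHom_apply_div (Polynomial.aeval (η t0))
      (nonZeroDivisors_le_comap_nonZeroDivisors_of_injective _ hinj) A 1
    simpa using this
  have hjX : j RatFunc.X = η t0 := by
    have := hjp Polynomial.X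
    rwa [RatFunc.algebraMap_X, Polynomial.aeval_X] at this
  let _ : Algebra (RatFunc M') R := j.toRingHom.toAlgebra
  have hja : ∀ f : RatFunc M', algebraMap (RatFunc M') R f = j f := fun f => rfl
  have : IsScalarTower M' (RatFunc M') R := IsScalarTower.of_algebraMap_eq fun c =>
    (j.commutes c).symm
  have : IsScalarTower ℂ M' R := IsScalarTower.of_algebraMap_eq fun c => rfl
  have : IsScalarTower ℂ (RatFunc M') R := IsScalarTower.of_algebraMap_eq fun c => by
    rw [IsScalarTower.algebraMap_apply ℂ M' (RatFunc M'),
      ← IsScalarTower.algebraMap_apply M' (RatFunc M') R, ← IsScalarTower.algebraMap_apply ℂ M' R]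
  have : IsScalarTower E (RatFunc M') R := IsScalarTower.of_algebraMap_eq fun c => by
    rw [IsScalarTower.algebraMap_apply E M' (RatFunc M'),
      ← IsScalarTower.algebraMap_apply M' (RatFunc M') R, ← IsScalarTower.algebraMap_apply E M' R]
  have halg2 : Algebra.IsAlgebraic (RatFunc M') R := by
    refine ⟨fun r => ?_⟩
    obtain ⟨C1, hC1⟩ : ∃ C1 : IntermediateField (RatFunc M') R,
      C1 = algebraicClosure (RatFunc M') R := ⟨_, rfl⟩
    have hle : IntermediateField.adjoin E (η '' (insert t0 T0)) ≤ C1.restrictScalars E := by
      rw [IntermediateField.adjoin_le_iff]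
      rintro _ ⟨i, hi, rfl⟩
      rcases Set.mem_insert_iff.1 hi with rfl | hi
      · rw [← hjX, ← hja]
        exact C1.algebraMap_mem _
      · have h1 : η i ∈ M' := by
          rw [hM']
          exact IntermediateField.subset_adjoin _ _ ⟨i, hi, rfl⟩
        have h2 : η i = algebraMap (RatFunc M') R (algebraMap M' (RatFunc M') ⟨η i, h1⟩) := by
          rw [← IsScalarTower.algebraMap_apply M' (RatFunc M') R]
          rfl
        rw [h2]
        exact C1.algebraMap_mem _
    let _ : Algebra (IntermediateField.adjoin E (η '' (insert t0 T0))) (C1.restrictScalars E) :=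
      (IntermediateField.inclusion hle).toRingHom.toAlgebra
    have : IsScalarTower (IntermediateField.adjoin E (η '' (insert t0 T0)))
        (C1.restrictScalars E) R := IsScalarTower.of_algebraMap_eq fun _ => rfl
    have h3 : IsAlgebraic (C1.restrictScalars E) r :=
      (halg1.isAlgebraic r).extendScalars (IntermediateField.inclusion hle).injective
    have h4 : IsAlgebraic C1 r := h3
    have h5 : Algebra.IsAlgebraic (RatFunc M') C1 := by
      rw [hC1]
      infer_instance
    exact h4.restrictScalars (RatFunc M')
  have hgenS : IntermediateField.adjoin (RatFunc M') (Set.range η) = ⊤ := by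
    rw [eq_top_iff]
    intro r _
    have h1 : r ∈ IntermediateField.adjoin E (Set.range η) := by
      rw [hgen]
      trivial
    have h2 : IntermediateField.adjoin E (Set.range η) ≤
        (IntermediateField.adjoin (RatFunc M') (Set.range η)).restrictScalars E := by
      rw [IntermediateField.adjoin_le_iff]
      exact IntermediateField.subset_adjoin _ _
    exact h2 h1
  have hfd : FiniteDimensional (RatFunc M') R := by
    have h1 : FiniteDimensional (RatFunc M')
        (IntermediateField.adjoin (RatFunc M') (Set.range η)) := by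
      have : Finite (Set.range η) := Set.finite_range η
      exact IntermediateField.finiteDimensional_adjoin fun x _ =>
        (halg2.isAlgebraic x).isIntegral
    rw [hgenS] at h1
    exact h1.equiv IntermediateField.topEquiv.toLinearEquiv
  have hessEM : Algebra.EssFiniteType E M' := by
    rw [IntermediateField.essFiniteType_iff, hM']
    exact IntermediateField.fg_adjoin_of_finite ((Set.toFinite T0).image η)
  have hessM : Algebra.EssFiniteType ℂ M' := Algebra.EssFiniteType.comp ℂ E M'
  -- the null traces
  obtain ⟨N', hN'⟩ : ∃ N' : ℕ, Algebra.trdeg ℂ M' = N' :=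
    Cardinal.lt_aleph0.1 (trdeg_lt_aleph0 ℂ M')
  obtain ⟨z, -, hz, -⟩ := Pool.Agent.Y172.exists_crd (k := ℂ) (K := M') hN'
  obtain ⟨c, hc, htr⟩ := vert (K := V) (M := M') (R := R) hn hz hω hω0
    (fun f : Fin m → Fin N => ∏ k, x (f k)) hreg (fun D hD1 hD2 => by
      let C0 : IntermediateField E R :=
        { carrier := {r | D r = 0}
          mul_mem' := fun {f g} hf hg => by
            change D (f * g) = 0
            rw [D.leibniz, show D f = 0 from hf, show D g = 0 from hg]
            simp
          add_mem' := fun {f g} hf hg => by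
            change D (f + g) = 0
            rw [map_add, show D f = 0 from hf, show D g = 0 from hg, add_zero]
          algebraMap_mem' := fun c => by
            change D (algebraMap E R c) = 0
            have h1 := hD1 (algebraMap E M' c)
            rw [← IsScalarTower.algebraMap_apply M' (RatFunc M') R,
              ← IsScalarTower.algebraMap_apply E M' R] at h1
            exact h1
          inv_mem' := fun f hf => by
            change D f⁻¹ = 0
            rw [Derivation.leibniz_inv, show D f = 0 from hf, smul_zero] }
      have h2 : IntermediateField.adjoin E (Set.range η) ≤ C0 := by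
        rw [IntermediateField.adjoin_le_iff]
        rintro _ ⟨i, rfl⟩
        obtain ⟨j, hj⟩ := hη i
        change D (η i) = 0
        rw [← hj]
        exact hD2 _
      ext r
      have h3 : r ∈ IntermediateField.adjoin E (Set.range η) := by
        rw [hgen]
        trivial
      exact h2 h3)
  have hcS : CharZero (RatFunc M') :=
    charZero_of_injective_algebraMap (algebraMap ℂ (RatFunc M')).injective
  refine isolated (S := RatFunc M') (R := R) η hgenS ?_ (fun 𝔭 h1 h2 h3 hI => ?_) hc
    fun α hα => ?_
  · refine min_up (E := E) (S := RatFunc M') (R := R) η (fun F hF a => ?_) hmin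
    have hX : RatFunc.X ∈ F := hF _ t0 (by rw [hja, hjX])
    have hM : ∀ l : M', algebraMap M' (RatFunc M') l ∈ F := by
      rintro ⟨l, hl⟩
      have key : ∀ l ∈ IntermediateField.adjoin E (η '' T0), ∀ hl : l ∈ M',
          algebraMap M' (RatFunc M') ⟨l, hl⟩ ∈ F := by
        intro l hl'
        induction hl' using IntermediateField.adjoin_induction with
        | mem x hx =>
          intro hl
          obtain ⟨i, -, rfl⟩ := hx
          refine hF _ i ?_
          rw [← IsScalarTower.algebraMap_apply M' (RatFunc M') R]
          rfl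
        | algebraMap a =>
          intro hl
          have h1 : algebraMap M' (RatFunc M') ⟨algebraMap E R a, hl⟩ =
              algebraMap E (RatFunc M') a := by
            rw [IsScalarTower.algebraMap_apply E M' (RatFunc M')]
            rfl
          rw [h1]
          exact F.algebraMap_mem a
        | add x y hx hy ihx ihy =>
          intro hl
          rw [← hM'] at hx hy
          have h1 : (⟨x + y, hl⟩ : M') = ⟨x, hx⟩ + ⟨y, hy⟩ := rfl
          rw [h1, map_add]
          exact F.add_mem (ihx hx) (ihy hy)
        | inv x hx ihx =>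
          intro hl
          rw [← hM'] at hx
          have h1 : (⟨x⁻¹, hl⟩ : M') = ⟨x, hx⟩⁻¹ := rfl
          rw [h1, map_inv₀]
          exact F.inv_mem (ihx hx)
        | mul x y hx hy ihx ihy =>
          intro hl
          rw [← hM'] at hx hy
          have h1 : (⟨x * y, hl⟩ : M') = ⟨x, hx⟩ * ⟨y, hy⟩ := rfl
          rw [h1, map_mul]
          exact F.mul_mem (ihx hx) (ihy hy)
      exact key l (hM' ▸ hl) hl
    have hpoly : ∀ A : Polynomial M', algebraMap (Polynomial M') (RatFunc M') A ∈ F := by
      intro A
      induction A using Polynomial.induction_on' with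
      | add p q hp hq =>
        rw [map_add]
        exact F.add_mem hp hq
      | monomial k l =>
        rw [← Polynomial.C_mul_X_pow_eq_monomial, map_mul, map_pow, RatFunc.algebraMap_X,
          ← Polynomial.algebraMap_eq, ← IsScalarTower.algebraMap_apply M' (Polynomial M')]
        exact F.mul_mem (hM l) (F.pow_mem hX k)
    rw [← RatFunc.num_div_denom a]
    exact F.div_mem (hpoly _) (hpoly _)
  · have hev : ∀ G : MvPolynomial (Fin (a + D)) E,
        aeval η (map (algebraMap E (RatFunc M')) G) = aeval η G :=
      fun G => aeval_map_algebraMap (RatFunc M') η G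
    refine hD (𝔭.comap (map (algebraMap E (RatFunc M')))) (Ideal.IsPrime.comap _) ?_ ?_
      (hI.comap h1)
    · rw [Ideal.span_le]
      intro G hG
      refine h2 (Ideal.subset_span ⟨?_, ?_⟩)
      · exact (Finset.sup_mono (support_map_subset _ _)).trans hG.1
      · rw [hev]
        exact hG.2
    · intro G hG
      have h4 := h3 hG
      rw [RingHom.mem_ker] at h4 ⊢
      rw [← hev]
      exact h4
  · obtain ⟨f, hf⟩ := exists_prod (A := R) (fun j => algebraMap V R (x j))
      (j0 := j0) (by rw [hj0, map_one]) η hη m α hα
    have h1 := htr f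
    rw [map_prod, hf] at h1
    exact h1

end Pool.Agent.U598.IK
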