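import Pool.Agent.U598.IK.Iso

/-!
Points which are isolated, or generic points of components, of the zero set of polynomials of
bounded degree: enlarging the field of coefficients by coordinates of the point.
-/

set_option autoImplicit false

open MvPolynomial

namespace Pool.Agent.U598.IK

section

variable {E S R : Type*} [Field E] [Field S] [Field R] [Algebra E S] [Algebra S R] [Algebra E R]
  [IsScalarTower E S R] {s : ℕ}

theorem min_up {d : ℕ} (η : Fin s → R)
    (hS : ∀ F : IntermediateField E S, (∀ (τ : S) (i : Fin s), algebraMap S R τ = η i → τ ∈ F) →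
      ∀ a, a ∈ F)
    (hmin : RingHom.ker (aeval η : MvPolynomial (Fin s) E →ₐ[E] R) ∈
      (Ideal.span (low E d η)).minimalPrimes) :
    RingHom.ker (aeval η : MvPolynomial (Fin s) S →ₐ[S] R) ∈
      (Ideal.span (low S d η)).minimalPrimes := by
  classical
  have hev : ∀ G : MvPolynomial (Fin s) E, aeval η (map (algebraMap E S) G) = aeval η G :=
    fun G => aeval_map_algebraMap S η G
  refine ⟨⟨RingHom.ker_isPrime _, ?_⟩, ?_⟩
  · rw [Ideal.span_le]
    intro G hG
    exact hG.2
  · rintro 𝔮 ⟨hq, hq2⟩ hq3 g hg
    have hcomap : RingHom.ker (aeval η : MvPolynomial (Fin s) E →ₐ[E] R) ≤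
        𝔮.comap (map (algebraMap E S)) := by
      refine hmin.2 ⟨Ideal.IsPrime.comap _, ?_⟩ ?_
      · rw [Ideal.span_le]
        intro G hG
        refine hq2 (Ideal.subset_span ⟨?_, ?_⟩)
        · exact (Finset.sup_mono (support_map_subset _ _)).trans hG.1
        · rw [hev]
          exact hG.2
      · intro G hG
        have h1 := hq3 hG
        rw [RingHom.mem_ker] at h1 ⊢
        rw [← hev]
        exact h1
    -- the denominators
    let Good : MvPolynomial (Fin s) S → Prop := fun g => ∃ D G : MvPolynomial (Fin s) E,
      map (algebraMap E S) D ∉ 𝔮 ∧ map (algebraMap E S) D * g - map (algebraMap E S) G ∈ 𝔮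
    have hadd : ∀ g g', Good g → Good g' → Good (g + g') := by
      rintro g g' ⟨D, G, h1, h2⟩ ⟨D', G', h1', h2'⟩
      refine ⟨D * D', D' * G + D * G', ?_, ?_⟩
      · rw [map_mul]
        exact fun h => (hq.mem_or_mem h).elim h1 h1'
      · have h3 : map (algebraMap E S) (D * D') * (g + g') -
            map (algebraMap E S) (D' * G + D * G') =
            map (algebraMap E S) D' * (map (algebraMap E S) D * g - map (algebraMap E S) G) +
            map (algebraMap E S) D * (map (algebraMap E S) D' * g' - map (algebraMap E S) G') := by
          rw [map_mul, map_add, map_mul, map_mul]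
          ring
        rw [h3]
        exact 𝔮.add_mem (𝔮.mul_mem_left _ h2) (𝔮.mul_mem_left _ h2')
    have hmul : ∀ g g', Good g → Good g' → Good (g * g') := by
      rintro g g' ⟨D, G, h1, h2⟩ ⟨D', G', h1', h2'⟩
      refine ⟨D * D', G * G', ?_, ?_⟩
      · rw [map_mul]
        exact fun h => (hq.mem_or_mem h).elim h1 h1'
      · have h3 : map (algebraMap E S) (D * D') * (g * g') - map (algebraMap E S) (G * G') =
            (map (algebraMap E S) D' * g') *
              (map (algebraMap E S) D * g - map (algebraMap E S) G) +
            map (algebraMap E S) G *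
              (map (algebraMap E S) D' * g' - map (algebraMap E S) G') := by
          rw [map_mul, map_mul]
          ring
        rw [h3]
        exact 𝔮.add_mem (𝔮.mul_mem_left _ h2) (𝔮.mul_mem_left _ h2')
    have hone : (1 : MvPolynomial (Fin s) S) ∉ 𝔮 := fun h => hq.ne_top ((Ideal.eq_top_iff_one _).2 h)
    have himg : ∀ G : MvPolynomial (Fin s) E, Good (map (algebraMap E S) G) := fun G =>
      ⟨1, G, by rw [map_one]; exact hone, by
        rw [map_one, one_mul, sub_self]
        exact 𝔮.zero_mem⟩
    have hsub : ∀ g g', Good g → g - g' ∈ 𝔮 → Good g' := by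
      rintro g g' ⟨D, G, h1, h2⟩ h
      refine ⟨D, G, h1, ?_⟩
      have h3 : map (algebraMap E S) D * g' - map (algebraMap E S) G =
          (map (algebraMap E S) D * g - map (algebraMap E S) G) -
          map (algebraMap E S) D * (g - g') := by ring
      rw [h3]
      exact 𝔮.sub_mem h2 (𝔮.mul_mem_left _ h)
    let F0 : IntermediateField E S :=
      { carrier := {a | Good (C a)}
        mul_mem' := fun {a b} ha hb => by
          change Good (C (a * b))
          rw [C_mul]
          exact hmul _ _ ha hb
        add_mem' := fun {a b} ha hb => by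
          change Good (C (a + b))
          rw [C_add]
          exact hadd _ _ ha hb
        algebraMap_mem' := fun c => by
          have h1 := himg (C c)
          rw [map_C] at h1
          exact h1
        inv_mem' := fun a ha => by
          change Good (C a⁻¹)
          by_cases ha0 : a = 0
          · rw [ha0, inv_zero, ← ha0]
            exact ha
          · obtain ⟨D, G, h1, h2⟩ := ha
            have hCa : (C a * C a⁻¹ : MvPolynomial (Fin s) S) = 1 := by
              rw [← C_mul, mul_inv_cancel₀ ha0, C_1]
            refine ⟨G, D, fun hG => h1 ?_, ?_⟩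
            · have h3 := 𝔮.add_mem h2 hG
              rw [sub_add_cancel] at h3
              have h4 := 𝔮.mul_mem_right (C a⁻¹) h3
              rwa [mul_assoc, hCa, mul_one] at h4
            · have h3 : map (algebraMap E S) G * C a⁻¹ - map (algebraMap E S) D =
                  -(C a⁻¹) * (map (algebraMap E S) D * C a - map (algebraMap E S) G) +
                    map (algebraMap E S) D * (C a * C a⁻¹ - 1) := by ring
              rw [h3, hCa, sub_self, mul_zero, add_zero]
              exact 𝔮.mul_mem_left _ h2 }
    have hconst : ∀ a : S, Good (C a) := fun a => hS F0 (fun τ i hτ => by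
      have h1 : (X i - C τ : MvPolynomial (Fin s) S) ∈ 𝔮 := by
        refine hq2 (Ideal.subset_span ⟨?_, ?_⟩)
        · refine (totalDegree_sub _ _).trans (max_le ?_ ?_)
          · rw [totalDegree_X]
            omega
          · rw [totalDegree_C]
            omega
        · rw [map_sub, aeval_X, aeval_C, hτ, sub_self]
      have h2 := himg (X i)
      rw [map_X] at h2
      exact hsub _ _ h2 h1) a
    have hall : ∀ g : MvPolynomial (Fin s) S, Good g := by
      intro g
      induction g using MvPolynomial.induction_on with
      | C a => exact hconst a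
      | add p q hp hq => exact hadd _ _ hp hq
      | mul_X p i hp =>
        refine hmul _ _ hp ?_
        have h2 := himg (X i)
        rwa [map_X] at h2
    obtain ⟨D, G, h1, h2⟩ := hall g
    have h3 : map (algebraMap E S) G ∈ 𝔮 := by
      have h4 : G ∈ RingHom.ker (aeval η : MvPolynomial (Fin s) E →ₐ[E] R) := by
        rw [RingHom.mem_ker, ← hev]
        have h5 := hq3 h2
        rw [RingHom.mem_ker] at h5 hg
        change aeval η _ = 0 at h5
        change aeval η g = 0 at hg
        rw [map_sub, map_mul, hg, mul_zero, zero_sub, neg_eq_zero] at h5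
        exact h5
      exact hcomap h4
    have h6 := 𝔮.add_mem h2 h3
    rw [sub_add_cancel] at h6
    exact (hq.mem_or_mem h6).resolve_left h1

end

end Pool.Agent.U598.IK
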