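import Mathlib

/-!
Wiebe's lemma for the origin of affine space: if the variables and the polynomials `F` have the
same isolated zero and `F = B X`, then the determinant of `B` is not in the ideal of `F`.
-/

set_option autoImplicit false

open MvPolynomial

namespace Pool.Agent.U598.IK

section

variable {Ω : Type*} [Field Ω]

/-- the restriction to the hyperplane on which the first coordinate is zero -/
noncomputable def cut (p : ℕ) : MvPolynomial (Fin (p + 1)) Ω →+* MvPolynomial (Fin p) Ω :=
  Polynomial.constantCoeff.comp (finSuccEquiv Ω p).toRingEquiv.toRingHom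

theorem cut_coeff (p : ℕ) (f : MvPolynomial (Fin (p + 1)) Ω) (m : Fin p →₀ ℕ) :
    coeff m (cut p f) = coeff (m.cons 0) f := by
  rw [← finSuccEquiv_coeff_coeff]
  rfl

theorem cut_X_zero (p : ℕ) : cut p (X 0 : MvPolynomial (Fin (p + 1)) Ω) = 0 := by
  change Polynomial.constantCoeff (finSuccEquiv Ω p (X 0)) = 0
  rw [finSuccEquiv_X_zero]
  simp

theorem cut_X_succ (p : ℕ) (j : Fin p) :
    cut p (X j.succ : MvPolynomial (Fin (p + 1)) Ω) = X j := by
  change Polynomial.constantCoeff (finSuccEquiv Ω p (X j.succ)) = _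
  rw [finSuccEquiv_X_succ]
  simp

theorem coeff_mul_X_pow_zero {σ : Type*} [DecidableEq σ] (f : MvPolynomial σ Ω) (m : σ →₀ ℕ) (i : σ)
    (t : ℕ) (h : m i ≤ t) : coeff m (f * X i ^ (t + 1)) = 0 := by
  rw [X_pow_eq_monomial, coeff_mul_monomial', if_neg]
  intro h1
  have h2 := h1 i
  rw [Finsupp.single_eq_same] at h2
  omega

/-- the coefficient of the socle monomial -/
theorem det_coeff (t : ℕ) : ∀ (p : ℕ) (v u : MvPolynomial (Fin p) Ω)
    (M : Matrix (Fin p) (Fin p) (MvPolynomial (Fin p) Ω)),
    (∀ i, ∑ j, M i j * X j = v * X i ^ (t + 1)) →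
    coeff (Finsupp.equivFunOnFinite.symm fun _ => t) (u * M.det) = coeff 0 u * coeff 0 v ^ p := by
  intro p
  induction p with
  | zero =>
    intro v u M _
    rw [Matrix.det_fin_zero, mul_one, pow_zero, mul_one]
    congr 1
    exact Subsingleton.elim _ _
  | succ p ih =>
    intro v u M hM
    have hadj : M.det * X 0 = ∑ l, M.adjugate 0 l * (v * X l ^ (t + 1)) := by
      have h1 : Matrix.mulVec (M.adjugate * M) (fun j => X j) 0 =
          Matrix.mulVec (M.det • (1 : Matrix (Fin (p + 1)) (Fin (p + 1))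
            (MvPolynomial (Fin (p + 1)) Ω))) (fun j => X j) 0 := by
        rw [Matrix.adjugate_mul]
      rw [← Matrix.mulVec_mulVec, Matrix.smul_mulVec, Matrix.one_mulVec, Pi.smul_apply,
        smul_eq_mul] at h1
      rw [← h1, Matrix.mulVec, dotProduct]
      refine Finset.sum_congr rfl fun l _ => ?_
      rw [← hM l]
      rfl
    have h2 : coeff (Finsupp.equivFunOnFinite.symm (fun _ => t) + Finsupp.single 0 1)
        (u * M.det * X 0) = coeff (Finsupp.equivFunOnFinite.symm fun _ => t) (u * M.det) :=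
      coeff_mul_X _ _ _
    rw [← h2, mul_assoc, hadj, Finset.mul_sum, coeff_sum, Fin.sum_univ_succ]
    have h3 : ∀ l : Fin p, coeff (Finsupp.equivFunOnFinite.symm (fun _ => t) +
        Finsupp.single (0 : Fin (p + 1)) 1)
        (u * (M.adjugate 0 l.succ * (v * X l.succ ^ (t + 1)))) = 0 := by
      intro l
      have h4 : u * (M.adjugate 0 l.succ * (v * X l.succ ^ (t + 1))) =
          (u * M.adjugate 0 l.succ * v) * X l.succ ^ (t + 1) := by ring
      rw [h4]
      refine coeff_mul_X_pow_zero _ _ _ _ ?_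
      rw [Finsupp.add_apply, Finsupp.single_eq_of_ne (Fin.succ_ne_zero l), add_zero]
      exact le_rfl
    rw [Finset.sum_eq_zero fun l _ => h3 l, add_zero]
    have h5 : u * (M.adjugate 0 0 * (v * X 0 ^ (t + 1))) =
        (u * v * M.adjugate 0 0) * X 0 ^ (t + 1) := by ring
    have h6 : (Finsupp.equivFunOnFinite.symm (fun _ => t) + Finsupp.single (0 : Fin (p + 1)) 1 :
        Fin (p + 1) →₀ ℕ) = (Finsupp.equivFunOnFinite.symm fun _ : Fin p => t).cons 0 +
        Finsupp.single 0 (t + 1) := by
      ext i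
      refine Fin.cases ?_ (fun i => ?_) i
      · simp
      · rw [Finsupp.add_apply, Finsupp.add_apply, Finsupp.single_eq_of_ne (Fin.succ_ne_zero i),
          Finsupp.single_eq_of_ne (Fin.succ_ne_zero i), Finsupp.cons_succ]
        rfl
    rw [h5, h6, X_pow_eq_monomial, coeff_mul_monomial, mul_one, ← cut_coeff, map_mul, map_mul]
    have h7 : cut p (M.adjugate 0 0) = ((M.submatrix Fin.succ Fin.succ).map (cut p)).det := by
      rw [Matrix.adjugate_fin_succ_eq_det_submatrix]
      simp only [Fin.coe_ofNat_eq_mod, Nat.zero_mod, add_zero, pow_zero, one_mul]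
      rw [RingHom.map_det]
      rfl
    rw [h7, ih (cut p v) (cut p u * cut p v) _ ?_]
    · rw [← constantCoeff_eq, map_mul, constantCoeff_eq, cut_coeff, cut_coeff, pow_succ]
      have h8 : ((0 : Fin p →₀ ℕ).cons 0 : Fin (p + 1) →₀ ℕ) = 0 := Finsupp.cons_zero_zero
      rw [h8]
      ring
    · intro i
      have h9 := congrArg (cut p) (hM i.succ)
      rw [map_sum, Fin.sum_univ_succ, map_mul, cut_X_zero, mul_zero, zero_add, map_mul, map_pow,
        cut_X_succ] at h9
      rw [← h9]
      refine Finset.sum_congr rfl fun j _ => ?_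
      rw [map_mul, cut_X_succ]
      rfl

/-- **Wiebe's lemma.** -/
theorem wiebe {p t : ℕ} {F : Fin p → MvPolynomial (Fin p) Ω}
    {B C : Matrix (Fin p) (Fin p) (MvPolynomial (Fin p) Ω)} (hB : ∀ i, ∑ j, B i j * X j = F i)
    {v : MvPolynomial (Fin p) Ω} (hv : coeff 0 v ≠ 0)
    (hC : ∀ i, ∑ j, C i j * F j = v * X i ^ (t + 1)) {u : MvPolynomial (Fin p) Ω}
    (hu : coeff 0 u ≠ 0) (e : Fin p → MvPolynomial (Fin p) Ω) :
    u * B.det ≠ ∑ j, e j * F j := by
  intro h
  have h1 := det_coeff t p v u (C * B) fun i => by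
    have h2 : ∀ j, (C * B) i j * X j = ∑ k, C i k * (B k j * X j) := by
      intro j
      rw [Matrix.mul_apply, Finset.sum_mul]
      exact Finset.sum_congr rfl fun k _ => by ring
    simp only [h2]
    rw [Finset.sum_comm]
    simp only [← Finset.mul_sum, hB]
    exact hC i
  have h2 : ∀ j, C.det * F j = ∑ k, C.adjugate j k * (v * X k ^ (t + 1)) := by
    intro j
    have h3 : Matrix.mulVec (C.adjugate * C) F j =
        Matrix.mulVec (C.det • (1 : Matrix (Fin p) (Fin p) (MvPolynomial (Fin p) Ω))) F j := by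
      rw [Matrix.adjugate_mul]
    rw [← Matrix.mulVec_mulVec, Matrix.smul_mulVec, Matrix.one_mulVec, Pi.smul_apply,
      smul_eq_mul] at h3
    rw [← h3, Matrix.mulVec, dotProduct]
    refine Finset.sum_congr rfl fun l _ => ?_
    rw [← hC l]
    rfl
  have h3 : u * (C * B).det = ∑ j, ∑ k, (e j * C.adjugate j k * v) * X k ^ (t + 1) := by
    calc u * (C * B).det = C.det * (u * B.det) := by
          rw [Matrix.det_mul]
          ring
      _ = ∑ j, e j * (C.det * F j) := by
          rw [h, Finset.mul_sum]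
          exact Finset.sum_congr rfl fun j _ => by ring
      _ = _ := by
          refine Finset.sum_congr rfl fun j _ => ?_
          rw [h2, Finset.mul_sum]
          exact Finset.sum_congr rfl fun k _ => by ring
  rw [h3, coeff_sum, Finset.sum_eq_zero] at h1
  · exact mul_ne_zero hu (pow_ne_zero _ hv) h1.symm
  · intro j _
    rw [coeff_sum]
    exact Finset.sum_eq_zero fun k _ => coeff_mul_X_pow_zero _ _ _ _ le_rfl

end

end Pool.Agent.U598.IK
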